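import Mathlib

/-!
# Kinetically constrained models: definitions
-/

open MeasureTheory Filter Topology

namespace Pool.Agent.H719R3.Kcm

/-- A site of the lattice `ℤ^d`. -/
abbrev Site (d : ℕ) := Fin d → ℤ

/-- A configuration: `true` means filled (healthy, `η_x = 1`), `false` means empty
(infected, `η_x = 0`). -/
abbrev Conf (d : ℕ) := Site d → Bool

/-- A kinetically constrained model on `ℤ^d`: nonnegative rates, the rate at `x` depending only
on the configuration at the sites `y ≠ x` at sup-distance at most `range` from `x`. -/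
structure KCM (d : ℕ) where
  rate : Site d → Conf d → ℝ
  rate_nonneg : ∀ x η, 0 ≤ rate x η
  range : ℕ
  finite_range : ∀ (x : Site d) (η ζ : Conf d),
    (∀ y, y ≠ x → (∀ i, |y i - x i| ≤ (range : ℤ)) → η y = ζ y) → rate x η = rate x ζ

variable {d : ℕ}

/-- The configuration `η` flipped at `x`. -/
def flip (η : Conf d) (x : Site d) : Conf d := Function.update η x (!(η x))

/-- The box `Λ_L = {-L, …, L}^d`. -/
noncomputable def box (d L : ℕ) : Finset (Site d) := Fintype.piFinset fun _ => Finset.Icc (-(L : ℤ)) L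

/-- The generator of the model in which only the sites of `Λ` are updated: `x ∈ Λ` is flipped
at rate `c_x(η) q` if it is filled and at rate `c_x(η) (1 - q)` if it is empty. -/
noncomputable def gen (K : KCM d) (q : ℝ) (Λ : Finset (Site d)) (f : Conf d → ℝ) (η : Conf d) : ℝ :=
  ∑ x ∈ Λ, K.rate x η * (if η x = true then q else 1 - q) * (f (flip η x) - f η)

/-- The semigroup `exp (t 𝓛_Λ)` of the model in which only the sites of `Λ` are updated. -/
noncomputable def semi (K : KCM d) (q : ℝ) (Λ : Finset (Site d)) (t : ℝ) (f : Conf d → ℝ)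
    (η : Conf d) : ℝ :=
  ∑' n : ℕ, t ^ n / (n.factorial : ℝ) * ((gen K q Λ)^[n] f) η

/-- Local functions: those depending on finitely many sites. -/
def IsLocal (f : Conf d → ℝ) : Prop :=
  ∃ D : Finset (Site d), ∀ η ζ : Conf d, (∀ x ∈ D, η x = ζ x) → f η = f ζ

/-- `μ` is stationary: `∫ P_t f dμ = ∫ f dμ` for all local `f` and `t ≥ 0`, where
`P_t f = lim_L exp (t 𝓛_{Λ_L}) f`. -/
def Stationary (K : KCM d) (q : ℝ) (μ : Measure (Conf d)) : Prop :=
  ∀ f : Conf d → ℝ, IsLocal f → ∀ t : ℝ, 0 ≤ t →
    Tendsto (fun L : ℕ => ∫ η, semi K q (box d L) t f η ∂μ) atTop (𝓝 (∫ η, f η ∂μ))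

open Classical in
/-- One step of the bootstrap percolation in `Λ`: the sites of `Λ` whose constraint is
satisfied are emptied. -/
noncomputable def bootStep (K : KCM d) (Λ : Set (Site d)) (η : Conf d) : Conf d :=
  fun x => if x ∈ Λ ∧ 0 < K.rate x η then false else η x

open Classical in
/-- The configuration equal to `η` on `Λ` and filled outside `Λ`. -/
noncomputable def fillOut (Λ : Set (Site d)) (η : Conf d) : Conf d :=
  fun x => if x ∈ Λ then η x else true

open Classical in
/-- The closure `[η]_Λ`: limit of the bootstrap percolation in `Λ` with every site outside `Λ`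
kept filled; for `Λ` the whole lattice this is `[η]`. -/
noncomputable def bclos (K : KCM d) (Λ : Set (Site d)) (η : Conf d) : Conf d :=
  fun x => decide (∀ n : ℕ, (bootStep K Λ)^[n] (fillOut Λ η) x = true)

/-- `β ∈ ℰ`, that is `[β] = β`. -/
def Closed (K : KCM d) (β : Conf d) : Prop := bclos K Set.univ β = β

/-- The event `A_L(β) = {η : [η]_{Λ_L} = β on Λ_L}`. -/
def evA (K : KCM d) (L : ℕ) (β : Conf d) : Set (Conf d) :=
  {η | ∀ x ∈ box d L, bclos K (box d L : Set (Site d)) η x = β x}

/-- The Bernoulli law on `Bool` giving mass `1 - q` to `true`. -/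
noncomputable def coin (q : Set.Ioo (0 : ℝ) 1) : Measure Bool :=
  ENNReal.ofReal (1 - (q : ℝ)) • Measure.dirac true + ENNReal.ofReal (q : ℝ) • Measure.dirac false

instance (q : Set.Ioo (0 : ℝ) 1) : IsProbabilityMeasure (coin q) := by
  constructor
  have h0 := q.2.1
  have h1 := q.2.2
  rw [coin]
  simp only [Measure.coe_add, Measure.coe_smul, Pi.add_apply, Pi.smul_apply, measure_univ,
    smul_eq_mul, mul_one]
  rw [← ENNReal.ofReal_add (by linarith) (by linarith)]
  norm_num

/-- The product Bernoulli measure `π`. -/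
noncomputable def bern (q : Set.Ioo (0 : ℝ) 1) : Measure (Conf d) :=
  Measure.infinitePi fun _ : Site d => coin q

instance (q : Set.Ioo (0 : ℝ) 1) : IsProbabilityMeasure (bern (d := d) q) := by
  unfold bern; infer_instance

/-- The conditional expectation `π(f | A_L(β))`. -/
noncomputable def condE (K : KCM d) (q : Set.Ioo (0 : ℝ) 1) (L : ℕ) (β : Conf d)
    (f : Conf d → ℝ) : ℝ :=
  (∫ η in evA K L β, f η ∂(bern q)) / (bern q).real (evA K L β)

/-- `β` is admissible: it is closed, `π(A_L(β)) > 0` for all large `L` and `π(f | A_L(β))`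
converges for every local `f`. -/
def Admissible (K : KCM d) (q : Set.Ioo (0 : ℝ) 1) (β : Conf d) : Prop :=
  Closed K β ∧ (∀ᶠ L : ℕ in atTop, 0 < bern q (evA K L β)) ∧
    ∀ f : Conf d → ℝ, IsLocal f → ∃ l : ℝ, Tendsto (fun L : ℕ => condE K q L β f) atTop (𝓝 l)

/-- `π_β(f) = lim_L π(f | A_L(β))`. -/
noncomputable def piBeta (K : KCM d) (q : Set.Ioo (0 : ℝ) 1) (β : Conf d) (f : Conf d → ℝ) : ℝ :=
  limUnder atTop (fun L : ℕ => condE K q L β f)

/-- `μ = ∫ π_β dμ_*(β)` for a probability measure `μ_*` concentrated on admissible `β`. -/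
def IsMixture (K : KCM d) (q : Set.Ioo (0 : ℝ) 1) (μ : Measure (Conf d)) : Prop :=
  ∃ μs : Measure (Conf d), IsProbabilityMeasure μs ∧ (∀ᵐ β ∂μs, Admissible K q β) ∧
    ∀ f : Conf d → ℝ, IsLocal f →
      AEMeasurable (fun β => piBeta K q β f) μs ∧ ∫ η, f η ∂μ = ∫ β, piBeta K q β f ∂μs

/-- The constraints are monotone: emptying sites can only increase the rates. -/
def MonotoneKCM (K : KCM d) : Prop :=
  ∀ (x : Site d) (η ζ : Conf d), (∀ y, η y = true → ζ y = true) → K.rate x ζ ≤ K.rate x η

/-- The rates are translation invariant. -/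
def TranslationInvariant (K : KCM d) : Prop :=
  ∀ (x a : Site d) (η : Conf d), K.rate (x + a) (fun y => η (y - a)) = K.rate x η

end Pool.Agent.H719R3.Kcm
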