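import Pool.Agent.H719R3.KcmRep

/-!
# Kinetically constrained models: detailed balance implies stationarity
-/

open MeasureTheory Filter Topology ProbabilityTheory

set_option linter.unusedSectionVars false

namespace Pool.Agent.H719R3.Kcm

variable {d : ℕ}

/-- sup-ball -/
noncomputable def ball (x : Site d) (r : ℕ) : Finset (Site d) :=
  Fintype.piFinset fun i => Finset.Icc (x i - r) (x i + r)

lemma mem_ball {x y : Site d} {r : ℕ} : y ∈ ball x r ↔ ∀ i, |y i - x i| ≤ (r : ℤ) := by
  unfold ball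
  rw [Fintype.mem_piFinset]
  refine forall_congr' fun i => ?_
  rw [Finset.mem_Icc, abs_le]
  constructor
  · rintro ⟨h1, h2⟩; constructor <;> linarith
  · rintro ⟨h1, h2⟩; constructor <;> linarith

lemma rate_local (K : KCM d) (x : Site d) : IsLocal (K.rate x) :=
  ⟨ball x K.range, fun η ζ h => K.finite_range x η ζ fun y _ hy => h y (mem_ball.2 hy)⟩

lemma flip_apply (η : Conf d) (x y : Site d) : flip η x y = if y = x then !(η x) else η y := by
  unfold flip
  by_cases h : y = x
  · subst h; simp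
  · rw [Function.update_of_ne h, if_neg h]

lemma flip_flip (η : Conf d) (x : Site d) : flip (flip η x) x = η := by
  funext y
  rw [flip_apply]
  by_cases h : y = x
  · subst h; simp [flip_apply]
  · rw [if_neg h, flip_apply, if_neg h]

lemma IsLocal.flip {f : Conf d → ℝ} (h : IsLocal f) (x : Site d) :
    IsLocal (fun η => f (flip η x)) := by
  obtain ⟨D, hD⟩ := h
  refine ⟨insert x D, fun η ζ h => hD _ _ fun y hy => ?_⟩
  rw [flip_apply, flip_apply, h x (Finset.mem_insert_self _ _),
    h y (Finset.mem_insert_of_mem hy)]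

lemma IsLocal.op {f g : Conf d → ℝ} (op : ℝ → ℝ → ℝ) (hf : IsLocal f) (hg : IsLocal g) :
    IsLocal (fun η => op (f η) (g η)) := by
  obtain ⟨D, hD⟩ := hf
  obtain ⟨E, hE⟩ := hg
  refine ⟨D ∪ E, fun η ζ h => ?_⟩
  simp only
  rw [hD η ζ fun x hx => h x (Finset.mem_union_left _ hx),
    hE η ζ fun x hx => h x (Finset.mem_union_right _ hx)]

lemma isLocal_const (c : ℝ) : IsLocal (fun _ : Conf d => c) := ⟨∅, fun _ _ _ => rfl⟩

lemma IsLocal.sum {ι : Type*} {s : Finset ι} {F : ι → Conf d → ℝ} (h : ∀ i ∈ s, IsLocal (F i)) :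
    IsLocal (fun η => ∑ i ∈ s, F i η) := by
  classical
  induction s using Finset.induction_on with
  | empty => simpa using isLocal_const (d := d) 0
  | insert a s ha ih =>
    simp only [Finset.sum_insert ha]
    exact IsLocal.op (· + ·) (h a (Finset.mem_insert_self _ _))
      (ih fun i hi => h i (Finset.mem_insert_of_mem hi))

/-- one term of the generator -/
noncomputable def term (K : KCM d) (q : ℝ) (x : Site d) (f : Conf d → ℝ) (η : Conf d) : ℝ :=
  K.rate x η * (if η x = true then q else 1 - q) * (f (flip η x) - f η)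

lemma ite_local (q : ℝ) (x : Site d) :
    IsLocal (fun η : Conf d => if η x = true then q else 1 - q) :=
  ⟨{x}, fun η ζ h => by simp only [h x (Finset.mem_singleton_self x)]⟩

lemma term_local (K : KCM d) (q : ℝ) (x : Site d) {f : Conf d → ℝ} (hf : IsLocal f) :
    IsLocal (term K q x f) := by
  have h1 := IsLocal.op (· * ·) (rate_local K x) (ite_local q x)
  have h2 := IsLocal.op (· - ·) (hf.flip x) hf
  exact IsLocal.op (· * ·) h1 h2

lemma gen_eq_sum (K : KCM d) (q : ℝ) (Λ : Finset (Site d)) (f : Conf d → ℝ) :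
    gen K q Λ f = fun η => ∑ x ∈ Λ, term K q x f η := rfl

lemma gen_local (K : KCM d) (q : ℝ) (Λ : Finset (Site d)) {f : Conf d → ℝ} (hf : IsLocal f) :
    IsLocal (gen K q Λ f) := by
  rw [gen_eq_sum]
  exact IsLocal.sum fun x _ => term_local K q x hf

lemma iter_local (K : KCM d) (q : ℝ) (Λ : Finset (Site d)) {f : Conf d → ℝ} (hf : IsLocal f)
    (n : ℕ) : IsLocal ((gen K q Λ)^[n] f) := by
  induction n with
  | zero => simpa using hf
  | succ n ih =>
    rw [Function.iterate_succ', Function.comp_apply]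
    exact gen_local K q Λ ih

lemma gen_bound (K : KCM d) (q : ℝ) (Λ : Finset (Site d)) :
    ∃ M : ℝ, 0 ≤ M ∧ ∀ (f : Conf d → ℝ) (C : ℝ), (∀ η, |f η| ≤ C) →
      ∀ η, |gen K q Λ f η| ≤ M * C := by
  choose R hR0 hR using fun x => (rate_local K x).bounded
  refine ⟨∑ x ∈ Λ, R x * (|q| + |1 - q|) * 2, ?_, ?_⟩
  · refine Finset.sum_nonneg fun x _ => ?_
    have := hR0 x
    positivity
  · intro f C hC η
    unfold gen
    refine (Finset.abs_sum_le_sum_abs _ _).trans ?_
    rw [Finset.sum_mul]
    refine Finset.sum_le_sum fun x _ => ?_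
    rw [abs_mul, abs_mul]
    have h1 : |K.rate x η| ≤ R x := hR x η
    have h2 : |if η x = true then q else 1 - q| ≤ |q| + |1 - q| := by
      split_ifs
      · linarith [abs_nonneg (1 - q)]
      · linarith [abs_nonneg q]
    have h3 : |f (flip η x) - f η| ≤ 2 * C := by
      refine (abs_sub _ _).trans ?_
      linarith [hC (flip η x), hC η]
    have hC0 : 0 ≤ C := (abs_nonneg _).trans (hC η)
    calc |K.rate x η| * |if η x = true then q else 1 - q| * |f (flip η x) - f η|
        ≤ R x * (|q| + |1 - q|) * (2 * C) := by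
          refine mul_le_mul (mul_le_mul h1 h2 (abs_nonneg _) (hR0 x)) h3 (abs_nonneg _) ?_
          have := hR0 x
          positivity
      _ = R x * (|q| + |1 - q|) * 2 * C := by ring

lemma iter_bound (K : KCM d) (q : ℝ) (Λ : Finset (Site d)) {f : Conf d → ℝ} {C M : ℝ}
    (hf : ∀ η, |f η| ≤ C) (hM : ∀ (f : Conf d → ℝ) (C : ℝ), (∀ η, |f η| ≤ C) →
      ∀ η, |gen K q Λ f η| ≤ M * C) (n : ℕ) : ∀ η, |(gen K q Λ)^[n] f η| ≤ M ^ n * C := by
  induction n with
  | zero => intro η; simpa using hf η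
  | succ n ih =>
    intro η
    rw [Function.iterate_succ', Function.comp_apply]
    refine (hM _ _ ih η).trans (le_of_eq ?_)
    ring

/-- detailed balance implies invariance under all finite volume semigroups -/
lemma semi_invariant (K : KCM d) (q : ℝ) (μ : Measure (Conf d)) [IsProbabilityMeasure μ]
    (h : ∀ x : Site d, ∀ f : Conf d → ℝ, IsLocal f → ∫ η, term K q x f η ∂μ = 0)
    (Λ : Finset (Site d)) (t : ℝ) {f : Conf d → ℝ} (hf : IsLocal f) :
    ∫ η, semi K q Λ t f η ∂μ = ∫ η, f η ∂μ := by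
  obtain ⟨C, hC0, hC⟩ := hf.bounded
  obtain ⟨M, hM0, hM⟩ := gen_bound K q Λ
  have hb := iter_bound K q Λ hC hM
  set F : ℕ → Conf d → ℝ := fun n η => t ^ n / (n.factorial : ℝ) * ((gen K q Λ)^[n] f) η with hF
  have hFi : ∀ n, Integrable (F n) μ := fun n =>
    ((iter_local K q Λ hf n).integrable μ).const_mul _
  have hFb : ∀ n, ∫ η, ‖F n η‖ ∂μ ≤ (|t| * M) ^ n / (n.factorial : ℝ) * C := by
    intro n
    have h1 : ∀ η, ‖F n η‖ ≤ (|t| * M) ^ n / (n.factorial : ℝ) * C := by
      intro η
      rw [Real.norm_eq_abs, hF]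
      simp only
      rw [abs_mul, abs_div, abs_pow, Nat.abs_cast, mul_pow]
      calc |t| ^ n / (n.factorial : ℝ) * |(gen K q Λ)^[n] f η|
          ≤ |t| ^ n / (n.factorial : ℝ) * (M ^ n * C) := by
            refine mul_le_mul_of_nonneg_left (hb n η) (by positivity)
        _ = |t| ^ n * M ^ n / (n.factorial : ℝ) * C := by ring
    calc ∫ η, ‖F n η‖ ∂μ ≤ ∫ _η, (|t| * M) ^ n / (n.factorial : ℝ) * C ∂μ :=
          integral_mono_of_nonneg (Filter.Eventually.of_forall fun _ => norm_nonneg _)
            (integrable_const _) (Filter.Eventually.of_forall h1)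
      _ = _ := by simp
  have hs : Summable fun n => ∫ η, ‖F n η‖ ∂μ := by
    refine Summable.of_nonneg_of_le (fun n => integral_nonneg fun _ => norm_nonneg _) hFb ?_
    exact (Real.summable_pow_div_factorial (|t| * M)).mul_right C
  have hsum := hasSum_integral_of_summable_integral_norm hFi hs
  have hgen : ∀ g : Conf d → ℝ, IsLocal g → ∫ η, gen K q Λ g η ∂μ = 0 := by
    intro g hg
    rw [gen_eq_sum, integral_finset_sum _ fun x _ => (term_local K q x hg).integrable μ]
    exact Finset.sum_eq_zero fun x _ => h x g hg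
  have hz : ∀ n, n ≠ 0 → ∫ η, F n η ∂μ = 0 := by
    intro n hn
    obtain ⟨m, rfl⟩ := Nat.exists_eq_succ_of_ne_zero hn
    rw [hF]
    simp only
    rw [integral_const_mul]
    have : ∫ η, (gen K q Λ)^[m.succ] f η ∂μ = 0 := by
      rw [Function.iterate_succ', Function.comp_apply]
      exact hgen _ (iter_local K q Λ hf m)
    rw [this, mul_zero]
  have h0 : ∫ η, F 0 η ∂μ = ∫ η, f η ∂μ := by
    simp [hF]
  have hsum' : HasSum (fun n => ∫ η, F n η ∂μ) (∫ η, F 0 η ∂μ) := by
    exact hasSum_single 0 fun n hn => hz n hn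
  rw [← h0]
  exact hsum.unique hsum'

lemma stationary_of_db (K : KCM d) (q : ℝ) (μ : Measure (Conf d)) [IsProbabilityMeasure μ]
    (h : ∀ x : Site d, ∀ f : Conf d → ℝ, IsLocal f → ∫ η, term K q x f η ∂μ = 0) :
    Stationary K q μ := by
  intro f hf t _
  simp only [semi_invariant K q μ h _ t hf]
  exact tendsto_const_nhds

end Pool.Agent.H719R3.Kcm
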