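import Pool.Agent.H719R3.Perc2
import Pool.Agent.H719R3.KcmStat

/-!
# A monotone kinetically constrained model on `ℤ³` and its finite volume reversible measures
-/

open MeasureTheory Filter Topology ProbabilityTheory Finset
open Pool.Agent.H719R3.Perc

set_option linter.unusedSectionVars false

namespace Pool.Agent.H719R3.Kcm

/-- `y` is one of the 18 sites with `|y_0 - x_0| = 1`, `|y_1 - x_1| ≤ 1`, `|y_2 - x_2| ≤ 1`. -/
def Nb (x y : Site 3) : Prop := |y 0 - x 0| = 1 ∧ |y 1 - x 1| ≤ 1 ∧ |y 2 - x 2| ≤ 1

open Classical in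
/-- The model on `ℤ³` with `c_x(η) = 1` if the 18 sites `y` with `Nb x y` are all empty, and
`c_x(η) = 0` otherwise. -/
noncomputable def layerKCM : KCM 3 where
  rate x η := if ∀ y, Nb x y → η y = false then 1 else 0
  rate_nonneg x η := by split_ifs <;> norm_num
  range := 1
  finite_range x η ζ h := by
    have : (∀ y, Nb x y → η y = false) ↔ ∀ y, Nb x y → ζ y = false := by
      refine forall₂_congr fun y hy => ?_
      rw [h y ?_ ?_]
      · rintro rfl
        have := hy.1
        simp at this
      · intro i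
        fin_cases i
        · exact hy.1.le
        · exact hy.2.1
        · exact hy.2.2
    simp only [this]

lemma layer_rate (x : Site 3) (η : Conf 3) [Decidable (∀ y, Nb x y → η y = false)] :
    layerKCM.rate x η = if ∀ y, Nb x y → η y = false then 1 else 0 := by
  unfold layerKCM
  simp only
  congr

lemma layer_rate_ne {x : Site 3} {η : Conf 3} :
    layerKCM.rate x η ≠ 0 ↔ ∀ y, Nb x y → η y = false := by
  classical
  rw [layer_rate]
  by_cases h : ∀ y, Nb x y → η y = false
  · rw [if_pos h]
    exact ⟨fun _ => h, fun _ => one_ne_zero⟩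
  · rw [if_neg h]
    exact ⟨fun h' => absurd rfl h', fun h' => absurd h' h⟩

lemma layer_rate_eq_zero {x y : Site 3} {η : Conf 3} (hy : Nb x y) (h : η y = true) :
    layerKCM.rate x η = 0 := by
  by_contra hne
  have := layer_rate_ne.1 hne y hy
  rw [h] at this
  exact Bool.noConfusion this

lemma layer_mono : MonotoneKCM layerKCM := by
  classical
  intro x η ζ h
  rw [layer_rate, layer_rate]
  split_ifs with h1 h2
  · exact le_rfl
  · exfalso
    refine h2 fun y hy => ?_
    by_contra h3
    rw [Bool.not_eq_false] at h3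
    have := h1 y hy
    rw [h y h3] at this
    exact Bool.noConfusion this
  · norm_num
  · exact le_rfl

lemma layer_trans : TranslationInvariant layerKCM := by
  classical
  intro x a η
  rw [layer_rate, layer_rate]
  have : (∀ y, Nb (x + a) y → η (y - a) = false) ↔ ∀ y, Nb x y → η y = false := by
    constructor
    · intro h y hy
      have := h (y + a) (by simpa [Nb] using hy)
      simpa using this
    · intro h y hy
      refine h (y - a) ?_
      unfold Nb at hy ⊢
      simp only [Pi.sub_apply, Pi.add_apply] at hy ⊢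
      have e : ∀ i, y i - a i - x i = y i - (x i + a i) := fun i => by ring
      rw [e, e, e]
      exact hy
  simp only [this]

lemma rate_flip (K : KCM 3) (x : Site 3) (η : Conf 3) : K.rate x (flip η x) = K.rate x η := by
  refine K.finite_range x _ _ fun y hy _ => ?_
  rw [flip_apply, if_neg hy]

/-- abstract detailed balance computation -/
lemma db_sum {ι : Type*} (s : Finset ι) (W : ι → ℝ) (cfg : ι → Conf 3) (K : KCM 3) (q : ℝ)
    (x : Site 3) (f : Conf 3 → ℝ) (tog : ι → ι)
    (h1 : ∀ p ∈ s, K.rate x (cfg p) ≠ 0 → tog p ∈ s)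
    (h2 : ∀ p ∈ s, K.rate x (cfg p) ≠ 0 → cfg (tog p) = flip (cfg p) x)
    (h3 : ∀ p ∈ s, K.rate x (cfg p) ≠ 0 → tog (tog p) = p)
    (h4 : ∀ p ∈ s, K.rate x (cfg p) ≠ 0 → W p * (if cfg p x = true then q else 1 - q) =
      W (tog p) * (if cfg (tog p) x = true then q else 1 - q)) :
    ∑ p ∈ s, W p * term K q x f (cfg p) = 0 := by
  classical
  refine Finset.sum_involution
    (fun p _ => if K.rate x (cfg p) = 0 then p else tog p) ?_ ?_ ?_ ?_
  · intro p hp
    by_cases hr : K.rate x (cfg p) = 0
    · simp [hr, term]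
    · simp only [hr, if_false]
      unfold term
      have e1 := h4 p hp hr
      have e2 := h2 p hp hr
      have e3 : K.rate x (cfg (tog p)) = K.rate x (cfg p) := by rw [e2, rate_flip]
      have e4 : flip (cfg (tog p)) x = cfg p := by rw [e2, flip_flip]
      rw [e2] at e1
      rw [e3, e4, e2]
      linear_combination (K.rate x (cfg p) * (f (flip (cfg p) x) - f (cfg p))) * e1
  · intro p hp hne
    by_cases hr : K.rate x (cfg p) = 0
    · simp [hr, term] at hne
    · simp only [hr, if_false]
      intro he
      have e2 := h2 p hp hr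
      rw [he] at e2
      have := congrFun e2 x
      rw [flip_apply, if_pos rfl] at this
      exact (Bool.not_ne_self (cfg p x)) this.symm
  · intro p hp
    by_cases hr : K.rate x (cfg p) = 0
    · simp [hr, hp]
    · simp only [hr, if_false]
      exact h1 p hp hr
  · intro p hp
    by_cases hr : K.rate x (cfg p) = 0
    · simp [hr]
    · simp only [hr, if_false]
      have e2 := h2 p hp hr
      have e3 : K.rate x (cfg (tog p)) = K.rate x (cfg p) := by rw [e2, rate_flip]
      rw [e3, if_neg hr]
      exact h3 p hp hr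

/-- toggling a cell -/
noncomputable def tg (c : Cell) (S : Finset Cell) : Finset Cell :=
  if c ∈ S then S.erase c else insert c S

lemma mem_tg_ne {c a : Cell} {S : Finset Cell} (h : a ≠ c) : a ∈ tg c S ↔ a ∈ S := by
  unfold tg
  split_ifs
  · rw [mem_erase]; tauto
  · rw [mem_insert]; tauto

lemma mem_tg_self {c : Cell} {S : Finset Cell} : c ∈ tg c S ↔ c ∉ S := by
  unfold tg
  split_ifs with h
  · simp [h]
  · simp [h]

lemma tg_tg (c : Cell) (S : Finset Cell) : tg c (tg c S) = S := by
  ext a
  by_cases h : a = c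
  · subst h
    rw [mem_tg_self, mem_tg_self, not_not]
  · rw [mem_tg_ne h, mem_tg_ne h]

lemma card_tg_of_mem {c : Cell} {S : Finset Cell} (h : c ∈ S) : (tg c S).card + 1 = S.card := by
  unfold tg
  rw [if_pos h]
  exact card_erase_add_one h

lemma card_tg_of_notMem {c : Cell} {S : Finset Cell} (h : c ∉ S) :
    (tg c S).card = S.card + 1 := by
  unfold tg
  rw [if_neg h]
  exact card_insert_of_notMem h

open Classical in
/-- the configuration of a coloured set of cells: layers `≤ -2` and `≥ 3` are filled, layers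
`-1` and `2` are empty; a cell outside `B` or in `S ∖ X` is filled in layer `0`, a cell of `X`
is filled in layer `1` -/
noncomputable def cf (B : Finset Cell) (p : Finset Cell × Finset Cell) : Conf 3 := fun x =>
  if x 0 ≤ -2 ∨ 3 ≤ x 0 then true
  else if x 0 = 0 then decide ((x 1, x 2) ∉ B ∨ ((x 1, x 2) ∈ p.1 ∧ (x 1, x 2) ∉ p.2))
  else if x 0 = 1 then decide ((x 1, x 2) ∈ p.2)
  else false

lemma cf_filled {B : Finset Cell} {p : Finset Cell × Finset Cell} {x : Site 3}
    (h : x 0 ≤ -2 ∨ 3 ≤ x 0) : cf B p x = true := by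
  unfold cf; rw [if_pos h]

lemma cf_empty {B : Finset Cell} {p : Finset Cell × Finset Cell} {x : Site 3}
    (h : x 0 = -1 ∨ x 0 = 2) : cf B p x = false := by
  unfold cf
  rw [if_neg (by omega), if_neg (by omega), if_neg (by omega)]

lemma cf_zero {B : Finset Cell} {p : Finset Cell × Finset Cell} {x : Site 3} (h : x 0 = 0) :
    cf B p x = true ↔ ((x 1, x 2) ∉ B ∨ ((x 1, x 2) ∈ p.1 ∧ (x 1, x 2) ∉ p.2)) := by
  unfold cf
  rw [if_neg (by omega), if_pos h, decide_eq_true_iff]

lemma cf_one {B : Finset Cell} {p : Finset Cell × Finset Cell} {x : Site 3} (h : x 0 = 1) :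
    cf B p x = true ↔ (x 1, x 2) ∈ p.2 := by
  unfold cf
  rw [if_neg (by omega), if_neg (by omega), if_pos h, decide_eq_true_iff]

lemma site_ext {x y : Site 3} (h0 : x 0 = y 0) (h1 : x 1 = y 1) (h2 : x 2 = y 2) : x = y := by
  funext i
  fin_cases i
  · exact h0
  · exact h1
  · exact h2

/-- sites in the frozen layers have rate zero -/
lemma cf_frozen {B : Finset Cell} {p : Finset Cell × Finset Cell} {x : Site 3}
    (h : x 0 ≤ -1 ∨ 2 ≤ x 0) : layerKCM.rate x (cf B p) = 0 := by
  rcases h with h | h
  · refine layer_rate_eq_zero (y := ![x 0 - 1, x 1, x 2]) ?_ (cf_filled ?_)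
    · unfold Nb; simp
    · left; simp; linarith
  · refine layer_rate_eq_zero (y := ![x 0 + 1, x 1, x 2]) ?_ (cf_filled ?_)
    · unfold Nb; simp
    · right; simp; linarith

lemma db_zero {B : Finset Cell} {q : ℝ} (hq0 : 0 < q) (x : Site 3) (hx0 : x 0 = 0)
    (hxB : (x 1, x 2) ∈ B) (f : Conf 3 → ℝ) :
    ∑ p ∈ PP B, ((1 - q) / q) ^ p.1.card * term layerKCM q x f (cf B p) = 0 := by
  set c : Cell := (x 1, x 2) with hc
  have key : ∀ p ∈ PP B, layerKCM.rate x (cf B p) ≠ 0 → ∀ a : Cell, ad a c → a ∉ p.2 := by
    intro p _ hr a ha hap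
    have h := layer_rate_ne.1 hr ![1, a.1, a.2] (by
      unfold Nb
      unfold ad at ha
      simp only [hc] at ha
      refine ⟨by simp [hx0], by simpa using ha.1, by simpa using ha.2⟩)
    have h2 := (cf_one (B := B) (p := p) (x := ![1, a.1, a.2]) (by simp)).2 (by simpa using hap)
    rw [h] at h2
    exact Bool.noConfusion h2
  refine db_sum (PP B) _ (cf B) layerKCM q x f (fun p => (tg c p.1, p.2)) ?_ ?_ ?_ ?_
  · intro p hp hr
    have hk := key p hp hr
    have hcX : c ∉ p.2 := hk c (ad_refl c)
    rw [mem_PP] at hp ⊢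
    obtain ⟨hSB, hXS, hX2, hX3⟩ := hp
    refine ⟨?_, ?_, ?_, hX3⟩
    · intro a ha
      by_cases hac : a = c
      · rw [hac]; exact hxB
      · exact hSB ((mem_tg_ne hac).1 ha)
    · intro a ha
      have hac : a ≠ c := fun h => hcX (h ▸ ha)
      exact (mem_tg_ne hac).2 (hXS ha)
    · intro a ha b hb hbX
      by_cases hbc : b = c
      · rw [hbc]
        exact fun had => hk a had ha
      · exact hX2 a ha b ((mem_tg_ne hbc).1 hb) hbX
  · intro p hp hr
    have hk := key p hp hr
    have hcX : c ∉ p.2 := hk c (ad_refl c)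
    funext y
    rw [flip_apply]
    by_cases hy : y = x
    · subst hy
      rw [if_pos rfl]
      have e1 := cf_zero (B := B) (p := (tg c p.1, p.2)) hx0
      have e2 := cf_zero (B := B) (p := p) hx0
      rw [← hc] at e1 e2
      simp only at e1
      rw [mem_tg_self] at e1
      rw [Bool.eq_iff_iff, Bool.not_eq_true', ← Bool.not_eq_true, e1, e2]
      tauto
    · rw [if_neg hy]
      unfold cf
      split_ifs with h1 h2 h3
      · rfl
      · have hne : (y 1, y 2) ≠ c := by
          intro he
          rw [hc, Prod.ext_iff] at he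
          exact hy (site_ext (h2.trans hx0.symm) he.1 he.2)
        simp only [mem_tg_ne hne]
      · rfl
      · rfl
  · intro p _ _
    simp only [tg_tg]
  · intro p hp hr
    have hk := key p hp hr
    have hcX : c ∉ p.2 := hk c (ad_refl c)
    have e1 := cf_zero (B := B) (p := (tg c p.1, p.2)) hx0
    have e2 := cf_zero (B := B) (p := p) hx0
    rw [← hc] at e1 e2
    simp only at e1
    rw [mem_tg_self] at e1
    by_cases hcS : c ∈ p.1
    · have t1 : ¬ cf B (tg c p.1, p.2) x = true := by rw [e1]; tauto
      have t2 : cf B p x = true := by rw [e2]; tauto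
      rw [if_neg t1, if_pos t2]
      simp only
      rw [← card_tg_of_mem hcS, pow_succ]
      field_simp
    · have t1 : cf B (tg c p.1, p.2) x = true := by rw [e1]; tauto
      have t2 : ¬ cf B p x = true := by rw [e2]; tauto
      rw [if_pos t1, if_neg t2]
      simp only
      rw [card_tg_of_notMem hcS, pow_succ]
      field_simp

lemma db_one {B : Finset Cell} {q : ℝ} (hq0 : 0 < q) (x : Site 3) (hx0 : x 0 = 1)
    (hxB : (x 1, x 2) ∈ B) (f : Conf 3 → ℝ) :
    ∑ p ∈ PP B, ((1 - q) / q) ^ p.1.card * term layerKCM q x f (cf B p) = 0 := by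
  set c : Cell := (x 1, x 2) with hc
  have key : ∀ p ∈ PP B, layerKCM.rate x (cf B p) ≠ 0 → ∀ a : Cell, ad a c →
      a ∈ B ∧ (a ∈ p.1 → a ∈ p.2) := by
    intro p _ hr a ha
    have h := layer_rate_ne.1 hr ![0, a.1, a.2] (by
      unfold Nb
      unfold ad at ha
      simp only [hc] at ha
      refine ⟨by simp [hx0], by simpa using ha.1, by simpa using ha.2⟩)
    have h2 := cf_zero (B := B) (p := p) (x := ![0, a.1, a.2]) (by simp)
    rw [h] at h2
    simp only [Matrix.cons_val_one, Matrix.cons_val_zero, Matrix.cons_val] at h2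
    have h3 : ¬ ((a.1, a.2) ∉ B ∨ (a.1, a.2) ∈ p.1 ∧ (a.1, a.2) ∉ p.2) := by
      rw [← h2]; simp
    tauto
  refine db_sum (PP B) _ (cf B) layerKCM q x f (fun p => (tg c p.1, tg c p.2)) ?_ ?_ ?_ ?_
  · intro p hp hr
    have hk := key p hp hr
    have hkc := (hk c (ad_refl c)).2
    rw [mem_PP] at hp ⊢
    obtain ⟨hSB, hXS, hX2, hX3⟩ := hp
    refine ⟨?_, ?_, ?_, ?_⟩
    · intro a ha
      by_cases hac : a = c
      · rw [hac]; exact hxB
      · exact hSB ((mem_tg_ne hac).1 ha)
    · intro a ha
      simp only at ha ⊢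
      by_cases hac : a = c
      · rw [hac] at ha ⊢
        rw [mem_tg_self] at ha ⊢
        exact fun h => ha (hkc h)
      · exact (mem_tg_ne hac).2 (hXS ((mem_tg_ne hac).1 ha))
    · intro a ha b hb hbX had
      simp only at ha hb hbX
      have hbc : b ≠ c := by
        intro h
        rw [h, mem_tg_self] at hb
        rw [h, mem_tg_self, not_not] at hbX
        exact hb (hXS hbX)
      rw [mem_tg_ne hbc] at hb hbX
      by_cases hac : a = c
      · rw [hac] at had
        exact hbX ((hk b (ad_symm had)).2 hb)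
      · exact hX2 a ((mem_tg_ne hac).1 ha) b hb hbX had
    · intro a ha b hb had
      simp only at ha
      by_cases hac : a = c
      · rw [hac] at had
        exact hb (hk b (ad_symm had)).1
      · exact hX3 a ((mem_tg_ne hac).1 ha) b hb had
  · intro p hp hr
    have hk := key p hp hr
    have hkc := (hk c (ad_refl c)).2
    rw [mem_PP] at hp
    obtain ⟨hSB, hXS, hX2, hX3⟩ := hp
    funext y
    rw [flip_apply]
    by_cases hy : y = x
    · subst hy
      rw [if_pos rfl]
      have e1 := cf_one (B := B) (p := (tg c p.1, tg c p.2)) hx0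
      have e2 := cf_one (B := B) (p := p) hx0
      rw [← hc] at e1 e2
      simp only at e1
      rw [mem_tg_self] at e1
      rw [Bool.eq_iff_iff, Bool.not_eq_true', ← Bool.not_eq_true, e1, e2]
    · rw [if_neg hy]
      unfold cf
      split_ifs with h1 h2 h3
      · rfl
      · by_cases hne : (y 1, y 2) = c
        · rw [hne]
          have hXc : c ∈ p.2 → c ∈ p.1 := fun h => hXS h
          simp only [mem_tg_self]
          rw [decide_eq_decide]
          tauto
        · simp only [mem_tg_ne hne]
      · have hne : (y 1, y 2) ≠ c := by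
          intro he
          rw [hc, Prod.ext_iff] at he
          exact hy (site_ext (h3.trans hx0.symm) he.1 he.2)
        simp only [mem_tg_ne hne]
      · rfl
  · intro p _ _
    simp only [tg_tg]
  · intro p hp hr
    have hk := key p hp hr
    have hkc := (hk c (ad_refl c)).2
    rw [mem_PP] at hp
    obtain ⟨hSB, hXS, hX2, hX3⟩ := hp
    have e1 := cf_one (B := B) (p := (tg c p.1, tg c p.2)) hx0
    have e2 := cf_one (B := B) (p := p) hx0
    rw [← hc] at e1 e2
    simp only at e1
    rw [mem_tg_self] at e1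
    by_cases hcS : c ∈ p.1
    · have t1 : ¬ cf B (tg c p.1, tg c p.2) x = true := by rw [e1]; tauto
      have t2 : cf B p x = true := by rw [e2]; tauto
      rw [if_neg t1, if_pos t2]
      simp only
      rw [← card_tg_of_mem hcS, pow_succ]
      field_simp
    · have hcX : c ∉ p.2 := fun h => hcS (hXS h)
      have t1 : cf B (tg c p.1, tg c p.2) x = true := by rw [e1]; tauto
      have t2 : ¬ cf B p x = true := by rw [e2]; tauto
      rw [if_pos t1, if_neg t2]
      simp only
      rw [card_tg_of_notMem hcS, pow_succ]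
      field_simp

/-- detailed balance at every site over `B` or in a frozen layer -/
lemma db_all {B : Finset Cell} {q : ℝ} (hq0 : 0 < q) (x : Site 3)
    (hxB : (x 1, x 2) ∈ B) (f : Conf 3 → ℝ) :
    ∑ p ∈ PP B, ((1 - q) / q) ^ p.1.card * term layerKCM q x f (cf B p) = 0 := by
  by_cases h0 : x 0 = 0
  · exact db_zero hq0 x h0 hxB f
  · by_cases h1 : x 0 = 1
    · exact db_one hq0 x h1 hxB f
    · refine sum_eq_zero fun p _ => ?_
      unfold term
      rw [cf_frozen (by omega)]
      ring

end Pool.Agent.H719R3.Kcm
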