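import Pool.Agent.H719R3.KcmDefs

/-!
# Kinetically constrained models: consequences of a representation by conditioned measures
-/

open MeasureTheory Filter Topology ProbabilityTheory

set_option linter.unusedSectionVars false

namespace Pool.Agent.H719R3.Kcm

variable {d : ℕ}

lemma mem_box {L : ℕ} {x : Site d} : x ∈ box d L ↔ ∀ i, -(L : ℤ) ≤ x i ∧ x i ≤ L := by
  simp [box, Fintype.mem_piFinset, Finset.mem_Icc]

lemma eventually_mem_box (x : Site d) : ∀ᶠ L : ℕ in atTop, x ∈ box d L := by
  have : ∀ i : Fin d, ∀ᶠ L : ℕ in atTop, -(L : ℤ) ≤ x i ∧ x i ≤ L := by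
    intro i
    filter_upwards [eventually_ge_atTop (x i).natAbs] with L hL
    omega
  filter_upwards [eventually_all.2 this] with L hL
  exact mem_box.2 hL

/-! ### local sets and functions -/

/-- set depending on the coordinates in `D` only -/
def DepOn (D : Finset (Site d)) (S : Set (Conf d)) : Prop :=
  ∀ η ζ : Conf d, (∀ x ∈ D, η x = ζ x) → (η ∈ S ↔ ζ ∈ S)

lemma DepOn.eq_preimage {D : Finset (Site d)} {S : Set (Conf d)} (h : DepOn D S) :
    S = (fun (η : Conf d) (i : D) => η i) ⁻¹' {t | ∃ ζ ∈ S, (fun i : D => ζ i) = t} := by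
  ext η
  simp only [Set.mem_preimage, Set.mem_ofPred_eq]
  constructor
  · intro hη
    exact ⟨η, hη, rfl⟩
  · rintro ⟨ζ, hζ, he⟩
    refine (h η ζ fun x hx => ?_).2 hζ
    have := congrFun he ⟨x, hx⟩
    exact this.symm

lemma measurable_restr (D : Finset (Site d)) :
    Measurable (fun (η : Conf d) (i : D) => η i) :=
  measurable_pi_lambda _ fun i => measurable_pi_apply _

lemma DepOn.measurableSet {D : Finset (Site d)} {S : Set (Conf d)} (h : DepOn D S) :
    MeasurableSet S := by
  rw [h.eq_preimage]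
  exact measurable_restr D (Set.toFinite _).measurableSet

lemma isLocal_iff_factor {f : Conf d → ℝ} : IsLocal f →
    ∃ D : Finset (Site d), ∃ g : (D → Bool) → ℝ, f = fun η => g (fun i => η i) := by
  rintro ⟨D, hD⟩
  refine ⟨D, fun t => f (fun x => if hx : x ∈ D then t ⟨x, hx⟩ else true), ?_⟩
  funext η
  refine hD _ _ fun x hx => ?_
  simp [hx]

lemma IsLocal.continuous {f : Conf d → ℝ} (h : IsLocal f) : Continuous f := by
  obtain ⟨D, g, rfl⟩ := isLocal_iff_factor h
  have h1 : Continuous g := continuous_of_discreteTopology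
  exact h1.comp (continuous_pi fun i => continuous_apply _)

lemma IsLocal.measurable {f : Conf d → ℝ} (h : IsLocal f) : Measurable f := by
  obtain ⟨D, g, rfl⟩ := isLocal_iff_factor h
  exact (measurable_of_finite g).comp (measurable_restr D)

lemma IsLocal.bounded {f : Conf d → ℝ} (h : IsLocal f) : ∃ C, 0 ≤ C ∧ ∀ η, |f η| ≤ C := by
  obtain ⟨D, g, rfl⟩ := isLocal_iff_factor h
  obtain ⟨C, hC⟩ := (Set.toFinite (Set.range fun t => |g t|)).bddAbove
  refine ⟨max C 0, le_max_right _ _, fun η => ?_⟩
  exact le_trans (hC ⟨fun i => η i, rfl⟩) (le_max_left _ _)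

lemma IsLocal.integrable {f : Conf d → ℝ} (h : IsLocal f) (μ : Measure (Conf d))
    [IsFiniteMeasure μ] : Integrable f μ := by
  obtain ⟨C, -, hC⟩ := h.bounded
  exact Integrable.of_bound h.measurable.aestronglyMeasurable C
    (Filter.Eventually.of_forall fun η => by rw [Real.norm_eq_abs]; exact hC η)

/-- indicator that all sites of `D` are filled -/
noncomputable def gD (D : Finset (Site d)) (η : Conf d) : ℝ :=
  if ∀ x ∈ D, η x = true then 1 else 0

lemma gD_local (D : Finset (Site d)) : IsLocal (gD D) := by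
  refine ⟨D, fun η ζ h => ?_⟩
  unfold gD
  have : (∀ x ∈ D, η x = true) ↔ ∀ x ∈ D, ζ x = true :=
    forall₂_congr fun x hx => by rw [h x hx]
  simp only [this]

lemma gD_nonneg (D : Finset (Site d)) (η : Conf d) : 0 ≤ gD D η := by
  unfold gD; split_ifs <;> norm_num

lemma gD_le_one (D : Finset (Site d)) (η : Conf d) : gD D η ≤ 1 := by
  unfold gD; split_ifs <;> norm_num

/-! ### the closure -/

lemma bootStep_mono {K : KCM d} (hK : MonotoneKCM K) {Λ Λ' : Set (Site d)} (hΛ : Λ' ⊆ Λ)
    {η ζ : Conf d} (h : ∀ x, η x = true → ζ x = true) :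
    ∀ x, bootStep K Λ η x = true → bootStep K Λ' ζ x = true := by
  intro x hx
  unfold bootStep at hx ⊢
  by_cases h1 : x ∈ Λ ∧ 0 < K.rate x η
  · simp [h1] at hx
  · rw [if_neg h1] at hx
    by_cases h2 : x ∈ Λ' ∧ 0 < K.rate x ζ
    · exact absurd ⟨hΛ h2.1, lt_of_lt_of_le h2.2 (hK x η ζ h)⟩ h1
    · rw [if_neg h2]; exact h x hx

lemma iter_mono {K : KCM d} (hK : MonotoneKCM K) {Λ Λ' : Set (Site d)} (hΛ : Λ' ⊆ Λ)
    {η ζ : Conf d} (h : ∀ x, η x = true → ζ x = true) (n : ℕ) :
    ∀ x, (bootStep K Λ)^[n] η x = true → (bootStep K Λ')^[n] ζ x = true := by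
  induction n with
  | zero => simpa using h
  | succ n ih =>
    simp only [Function.iterate_succ', Function.comp_apply]
    exact bootStep_mono hK hΛ ih

lemma bclos_eq_true {K : KCM d} {Λ : Set (Site d)} {η : Conf d} {x : Site d} :
    bclos K Λ η x = true ↔ ∀ n : ℕ, (bootStep K Λ)^[n] (fillOut Λ η) x = true := by
  unfold bclos; simp

lemma bclos_mono {K : KCM d} (hK : MonotoneKCM K) {Λ Λ' : Set (Site d)} (hΛ : Λ' ⊆ Λ)
    {η ζ : Conf d} (h : ∀ x, fillOut Λ η x = true → fillOut Λ' ζ x = true) :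
    ∀ x, bclos K Λ η x = true → bclos K Λ' ζ x = true := by
  intro x hx
  rw [bclos_eq_true] at hx ⊢
  exact fun n => iter_mono hK hΛ h n x (hx n)

lemma fillOut_univ (η : Conf d) : fillOut Set.univ η = η := by
  funext x; simp [fillOut]

lemma closed_blocked {K : KCM d} {β : Conf d} (hβ : Closed K β) {x : Site d}
    (hx : β x = true) : ¬ 0 < K.rate x β := by
  intro h
  have h1 : bclos K Set.univ β x = true := by rw [hβ]; exact hx
  rw [bclos_eq_true] at h1
  have h2 := h1 1
  rw [fillOut_univ] at h2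
  simp [bootStep, h] at h2

lemma bclos_le {K : KCM d} {Λ : Set (Site d)} {η : Conf d} {x : Site d} (hx : x ∈ Λ)
    (h : bclos K Λ η x = true) : η x = true := by
  rw [bclos_eq_true] at h
  have := h 0
  simpa [fillOut, hx] using this

lemma evA_filled {K : KCM d} {L : ℕ} {β η : Conf d} (hη : η ∈ evA K L β) {x : Site d}
    (hx : x ∈ box d L) (hβ : β x = true) : η x = true := by
  have h := hη x hx
  rw [hβ] at h
  exact bclos_le (Finset.mem_coe.2 hx) h

lemma fillOut_congr {Λ : Finset (Site d)} {η ζ : Conf d} (h : ∀ x ∈ Λ, η x = ζ x) :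
    fillOut (Λ : Set (Site d)) η = fillOut (Λ : Set (Site d)) ζ := by
  funext x
  unfold fillOut
  by_cases hx : x ∈ (Λ : Set (Site d))
  · rw [if_pos hx, if_pos hx]; exact h x (Finset.mem_coe.1 hx)
  · rw [if_neg hx, if_neg hx]

lemma evA_dep (K : KCM d) (L : ℕ) (β : Conf d) : DepOn (box d L) (evA K L β) := by
  intro η ζ h
  unfold evA bclos
  rw [Set.mem_ofPred_eq, Set.mem_ofPred_eq, fillOut_congr h]

lemma evA_empty {K : KCM d} (hK : MonotoneKCM K) {L : ℕ} {β η : Conf d} (hβ : Closed K β)
    (hη : η ∈ evA K L β) {x : Site d} (hx : β x = false) :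
    Function.update η x false ∈ evA K L β := by
  intro y hy
  have h1 := hη y hy
  have hle : ∀ z, Function.update η x false z = true → η z = true := by
    intro z hz
    by_cases hzx : z = x
    · subst hzx; simp at hz
    · rwa [Function.update_of_ne hzx] at hz
  rcases hb : β y with _ | _
  · by_contra h2
    rw [Bool.not_eq_false] at h2
    have h3 : bclos K (box d L : Set (Site d)) η y = true := by
      refine bclos_mono hK subset_rfl ?_ y h2
      intro z hz
      unfold fillOut at hz ⊢
      by_cases hzΛ : z ∈ (box d L : Set (Site d))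
      · rw [if_pos hzΛ] at hz ⊢; exact hle z hz
      · rw [if_neg hzΛ]
    rw [h3, hb] at h1
    exact Bool.noConfusion h1
  · have h2 : bclos K Set.univ β y = true := by rw [hβ]; exact hb
    have h3 : bclos K (box d L : Set (Site d)) β y = true := by
      refine bclos_mono hK (Set.subset_univ _) ?_ y h2
      intro z hz
      rw [fillOut_univ] at hz
      unfold fillOut
      split_ifs
      · exact hz
      · rfl
    refine bclos_mono hK subset_rfl ?_ y h3
    intro z hz
    unfold fillOut at hz ⊢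
    by_cases hzΛ : z ∈ (box d L : Set (Site d))
    · rw [if_pos hzΛ] at hz ⊢
      have hzx : z ≠ x := by
        rintro rfl
        rw [hx] at hz
        exact Bool.noConfusion hz
      rw [Function.update_of_ne hzx]
      exact evA_filled hη (Finset.mem_coe.1 hzΛ) hz
    · rw [if_neg hzΛ]

/-! ### the product measure -/

lemma coin_true (q : Set.Ioo (0 : ℝ) 1) : coin q {true} = ENNReal.ofReal (1 - (q : ℝ)) := by
  simp [coin]

lemma coin_false (q : Set.Ioo (0 : ℝ) 1) : coin q {false} = ENNReal.ofReal (q : ℝ) := by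
  simp [coin]

lemma bern_coord (q : Set.Ioo (0 : ℝ) 1) (x : Site d) (b : Bool) :
    bern q {η : Conf d | η x = b} = coin q {b} := by
  have h := (measurePreserving_eval_infinitePi (fun _ : Site d => coin q) x).measure_preimage
    (measurableSet_singleton b).nullMeasurableSet
  exact h

lemma bern_indep (q : Set.Ioo (0 : ℝ) 1) {x : Site d} {D : Finset (Site d)} (hx : x ∉ D)
    {S : Set (Conf d)} (hS : DepOn D S) (b : Bool) :
    bern q (S ∩ {η | η x = b}) = bern q S * coin q {b} := by
  have h0 : iIndepFun (fun (y : Site d) (η : Conf d) => η y) (bern (d := d) q) :=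
    iIndepFun_infinitePi (P := fun _ : Site d => coin q) (X := fun _ => id)
      (fun _ => measurable_id)
  have h1 := h0.indepFun_finset D {x} (Finset.disjoint_singleton_right.2 hx)
    (fun i => measurable_pi_apply i)
  have h2 := h1.measure_inter_preimage_eq_mul
    {t : D → Bool | ∃ ζ ∈ S, (fun i : D => ζ i) = t}
    {t : ({x} : Finset (Site d)) → Bool | t ⟨x, Finset.mem_singleton_self x⟩ = b}
    (Set.toFinite _).measurableSet (Set.toFinite _).measurableSet
  have e1 := hS.eq_preimage
  have e2 : {η : Conf d | η x = b} = (fun (η : Conf d) (i : ({x} : Finset (Site d))) => η i) ⁻¹'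
      {t | t ⟨x, Finset.mem_singleton_self x⟩ = b} := by
    ext η; simp
  rw [← bern_coord q x b]
  conv_lhs => rw [e1, e2]
  conv_rhs => rw [e1, e2]
  exact h2

lemma setInt_gD (q : Set.Ioo (0 : ℝ) 1) {A : Set (Conf d)} (hA : MeasurableSet A)
    (D : Finset (Site d)) :
    ∫ η in A, gD D η ∂(bern q) = (bern q).real (A ∩ {η | ∀ x ∈ D, η x = true}) := by
  have hm : MeasurableSet {η : Conf d | ∀ x ∈ D, η x = true} := by
    apply DepOn.measurableSet (D := D)
    intro η ζ h
    exact forall₂_congr fun x hx => by rw [h x hx]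
  have : (fun η => gD D η) = Set.indicator {η : Conf d | ∀ x ∈ D, η x = true} (fun _ => (1 : ℝ)) := by
    funext η
    unfold gD Set.indicator
    simp
  rw [this, integral_indicator hm, Measure.restrict_restrict hm, Set.inter_comm]
  simp [Measure.real]

lemma condE_gD_one {K : KCM d} {q : Set.Ioo (0 : ℝ) 1} {L : ℕ} {β : Conf d}
    {D : Finset (Site d)} (hD : ∀ x ∈ D, x ∈ box d L ∧ β x = true)
    (hpos : 0 < bern q (evA K L β)) : condE K q L β (gD D) = 1 := by
  unfold condE
  rw [setInt_gD q (evA_dep K L β).measurableSet]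
  have : evA K L β ∩ {η | ∀ x ∈ D, η x = true} = evA K L β := by
    refine Set.inter_eq_left.2 fun η hη x hx => ?_
    exact evA_filled hη (hD x hx).1 (hD x hx).2
  rw [this]
  refine div_self ?_
  rw [Measure.real]
  exact (ENNReal.toReal_pos hpos.ne' (measure_ne_top _ _)).ne'

lemma condE_gD_le {K : KCM d} (hK : MonotoneKCM K) {q : Set.Ioo (0 : ℝ) 1} {L : ℕ} {β : Conf d}
    (hβ : Closed K β) {x : Site d} (hxL : x ∈ box d L) (hx : β x = false)
    (hpos : 0 < bern q (evA K L β)) : condE K q L β (gD {x}) ≤ 1 - (q : ℝ) := by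
  unfold condE
  have hq0 := q.2.1
  have hq1 := q.2.2
  rw [setInt_gD q (evA_dep K L β).measurableSet]
  set A := evA K L β with hA
  set A' : Set (Conf d) := {η | Function.update η x false ∈ A} with hA'
  have hdep : DepOn ((box d L).erase x) A' := by
    intro η ζ h
    refine evA_dep K L β _ _ fun y hy => ?_
    by_cases hyx : y = x
    · subst hyx; simp
    · rw [Function.update_of_ne hyx, Function.update_of_ne hyx]
      exact h y (Finset.mem_erase.2 ⟨hyx, hy⟩)
  have hAm : MeasurableSet A := (evA_dep K L β).measurableSet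
  have i1 := bern_indep q (Finset.notMem_erase x _) hdep true
  have i0 := bern_indep q (Finset.notMem_erase x _) hdep false
  rw [coin_true] at i1
  rw [coin_false] at i0
  have r1 : (bern q).real (A' ∩ {η | η x = true}) = (bern q).real A' * (1 - (q : ℝ)) := by
    rw [Measure.real, i1, ENNReal.toReal_mul, ENNReal.toReal_ofReal (by linarith)]
    rfl
  have r0 : (bern q).real (A' ∩ {η | η x = false}) = (bern q).real A' * (q : ℝ) := by
    rw [Measure.real, i0, ENNReal.toReal_mul, ENNReal.toReal_ofReal (by linarith)]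
    rfl
  have s1 : A ∩ {η | ∀ y ∈ ({x} : Finset (Site d)), η y = true} ⊆ A' ∩ {η | η x = true} := by
    rintro η ⟨h1, h2⟩
    exact ⟨evA_empty hK hβ h1 hx, h2 x (Finset.mem_singleton_self x)⟩
  have s0 : A ∩ {η | η x = false} = A' ∩ {η | η x = false} := by
    ext η
    constructor
    · rintro ⟨h1, h2⟩
      refine ⟨?_, h2⟩
      have : Function.update η x false = η := by
        rw [Function.update_eq_self_iff]; exact (h2 : η x = false).symm
      rw [hA', Set.mem_ofPred_eq, this]
      exact h1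
    · rintro ⟨h1, h2⟩
      refine ⟨?_, h2⟩
      have : Function.update η x false = η := by
        rw [Function.update_eq_self_iff]; exact (h2 : η x = false).symm
      rw [hA', Set.mem_ofPred_eq, this] at h1
      exact h1
  have hsum : (bern q).real A =
      (bern q).real (A ∩ {η | ∀ y ∈ ({x} : Finset (Site d)), η y = true}) +
      (bern q).real (A ∩ {η | η x = false}) := by
    have hm : MeasurableSet {η : Conf d | ∀ y ∈ ({x} : Finset (Site d)), η y = true} := by
      apply DepOn.measurableSet (D := {x})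
      intro η ζ h
      exact forall₂_congr fun y hy => by rw [h y hy]
    rw [← measureReal_inter_add_sdiff hm (s := A)]
    congr 2
    ext η
    simp
  have hle : (bern q).real (A ∩ {η | ∀ y ∈ ({x} : Finset (Site d)), η y = true}) ≤
      (bern q).real A' * (1 - (q : ℝ)) := by
    rw [← r1]
    exact measureReal_mono s1 (measure_ne_top _ _)
  rw [s0, r0] at hsum
  have hApos : 0 < (bern q).real A := ENNReal.toReal_pos hpos.ne' (measure_ne_top _ _)
  rw [div_le_iff₀ hApos, hsum]
  nlinarith

lemma condE_nonneg {K : KCM d} {q : Set.Ioo (0 : ℝ) 1} {L : ℕ} {β : Conf d} {f : Conf d → ℝ}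
    (hf : ∀ η, 0 ≤ f η) : 0 ≤ condE K q L β f := by
  unfold condE
  exact div_nonneg (integral_nonneg fun η => hf η) measureReal_nonneg

lemma condE_le_one {K : KCM d} {q : Set.Ioo (0 : ℝ) 1} {L : ℕ} {β : Conf d}
    (D : Finset (Site d)) : condE K q L β (gD D) ≤ 1 := by
  unfold condE
  rw [setInt_gD q (evA_dep K L β).measurableSet]
  refine div_le_one_of_le₀ ?_ measureReal_nonneg
  exact measureReal_mono Set.inter_subset_left (measure_ne_top _ _)

lemma piBeta_tendsto {K : KCM d} {q : Set.Ioo (0 : ℝ) 1} {β : Conf d} (hβ : Admissible K q β)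
    {f : Conf d → ℝ} (hf : IsLocal f) :
    Tendsto (fun L : ℕ => condE K q L β f) atTop (𝓝 (piBeta K q β f)) :=
  tendsto_nhds_limUnder (hβ.2.2 f hf)

lemma piBeta_nonneg {K : KCM d} {q : Set.Ioo (0 : ℝ) 1} {β : Conf d} (hβ : Admissible K q β)
    {f : Conf d → ℝ} (hf : IsLocal f) (h : ∀ η, 0 ≤ f η) : 0 ≤ piBeta K q β f :=
  ge_of_tendsto' (piBeta_tendsto hβ hf) fun _ => condE_nonneg h

lemma piBeta_le_one {K : KCM d} {q : Set.Ioo (0 : ℝ) 1} {β : Conf d} (hβ : Admissible K q β)
    (D : Finset (Site d)) : piBeta K q β (gD D) ≤ 1 :=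
  le_of_tendsto' (piBeta_tendsto hβ (gD_local D)) fun _ => condE_le_one D

lemma piBeta_gD_one {K : KCM d} {q : Set.Ioo (0 : ℝ) 1} {β : Conf d} (hβ : Admissible K q β)
    {D : Finset (Site d)} (hD : ∀ x ∈ D, β x = true) : piBeta K q β (gD D) = 1 := by
  refine tendsto_nhds_unique (piBeta_tendsto hβ (gD_local D)) ?_
  refine tendsto_const_nhds.congr' ?_
  have h1 : ∀ᶠ L : ℕ in atTop, ∀ x ∈ D, x ∈ box d L := by
    rw [Filter.eventually_all_finset]
    intro x _
    exact eventually_mem_box x
  filter_upwards [h1, hβ.2.1] with L h2 h3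
  exact (condE_gD_one (fun x hx => ⟨h2 x hx, hD x hx⟩) h3).symm

lemma piBeta_gD_le {K : KCM d} (hK : MonotoneKCM K) {q : Set.Ioo (0 : ℝ) 1} {β : Conf d}
    (hβ : Admissible K q β) {x : Site d} (hx : β x = false) :
    piBeta K q β (gD {x}) ≤ 1 - (q : ℝ) := by
  refine le_of_tendsto (piBeta_tendsto hβ (gD_local {x})) ?_
  filter_upwards [eventually_mem_box x, hβ.2.1] with L h2 h3
  exact condE_gD_le hK hβ.1 h2 hx h3

/-- a site which is a.s. filled under a mixture is a.s. filled under the mixing measure -/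
lemma mix_one {K : KCM d} (hK : MonotoneKCM K) {q : Set.Ioo (0 : ℝ) 1} {μs : Measure (Conf d)}
    [IsProbabilityMeasure μs] (hadm : ∀ᵐ β ∂μs, Admissible K q β) {x : Site d}
    (hm : AEMeasurable (fun β => piBeta K q β (gD {x})) μs)
    (h : ∫ β, piBeta K q β (gD {x}) ∂μs = 1) : ∀ᵐ β ∂μs, β x = true := by
  have hq0 := q.2.1
  have hb : ∀ᵐ β ∂μs, ‖piBeta K q β (gD {x})‖ ≤ 1 := by
    filter_upwards [hadm] with β hβ
    rw [Real.norm_eq_abs, abs_of_nonneg (piBeta_nonneg hβ (gD_local _) (gD_nonneg _))]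
    exact piBeta_le_one hβ _
  have hint : Integrable (fun β => piBeta K q β (gD {x})) μs :=
    Integrable.of_bound hm.aestronglyMeasurable 1 hb
  have h1 : ∫ β, (1 - piBeta K q β (gD {x})) ∂μs = 0 := by
    rw [integral_sub (integrable_const _) hint, h]
    simp
  have h2 : (fun β => 1 - piBeta K q β (gD {x})) =ᵐ[μs] 0 := by
    refine (integral_eq_zero_iff_of_nonneg_ae ?_ ((integrable_const _).sub hint)).1 h1
    filter_upwards [hadm] with β hβ
    have := piBeta_le_one hβ ({x} : Finset (Site d))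
    show 0 ≤ 1 - piBeta K q β (gD {x})
    linarith
  filter_upwards [h2, hadm] with β h3 hβ
  by_contra h4
  rw [Bool.not_eq_true] at h4
  have := piBeta_gD_le hK hβ h4
  simp only [Pi.zero_apply] at h3
  linarith

/-- sites which are a.s. not all filled under a mixture are a.s. not all filled under the
mixing measure -/
lemma mix_zero {K : KCM d} {q : Set.Ioo (0 : ℝ) 1} {μs : Measure (Conf d)}
    [IsProbabilityMeasure μs] (hadm : ∀ᵐ β ∂μs, Admissible K q β) {D : Finset (Site d)}
    (hm : AEMeasurable (fun β => piBeta K q β (gD D)) μs)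
    (h : ∫ β, piBeta K q β (gD D) ∂μs = 0) : ∀ᵐ β ∂μs, ¬ ∀ x ∈ D, β x = true := by
  have hb : ∀ᵐ β ∂μs, ‖piBeta K q β (gD D)‖ ≤ 1 := by
    filter_upwards [hadm] with β hβ
    rw [Real.norm_eq_abs, abs_of_nonneg (piBeta_nonneg hβ (gD_local _) (gD_nonneg _))]
    exact piBeta_le_one hβ _
  have hint : Integrable (fun β => piBeta K q β (gD D)) μs :=
    Integrable.of_bound hm.aestronglyMeasurable 1 hb
  have h2 : (fun β => piBeta K q β (gD D)) =ᵐ[μs] 0 := by
    refine (integral_eq_zero_iff_of_nonneg_ae ?_ hint).1 h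
    filter_upwards [hadm] with β hβ
    exact piBeta_nonneg hβ (gD_local _) (gD_nonneg _)
  filter_upwards [h2, hadm] with β h3 hβ h4
  have := piBeta_gD_one hβ h4
  rw [this] at h3
  simp at h3

end Pool.Agent.H719R3.Kcm
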