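import Mathlib

/-!
# Colourings of random sets of cells: a multiscale argument
-/

open Finset

set_option linter.unusedSectionVars false

namespace Pool.Agent.H719R3.Perc

/-- cells of the plane -/
abbrev Cell := ℤ × ℤ

/-- cells at sup-distance at most one -/
def ad (a b : Cell) : Prop := |a.1 - b.1| ≤ 1 ∧ |a.2 - b.2| ≤ 1

lemma ad_symm {a b : Cell} (h : ad a b) : ad b a := by
  unfold ad at h ⊢
  rw [abs_sub_comm b.1, abs_sub_comm b.2]
  exact h

lemma ad_refl (a : Cell) : ad a a := by simp [ad]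

/-- admissible colourings `X` of `S ⊆ B`: `X` is not adjacent to `S ∖ X`, nor to the outside
of `B` -/
def Ok (B S X : Finset Cell) : Prop :=
  X ⊆ S ∧ (∀ a ∈ X, ∀ b ∈ S, b ∉ X → ¬ ad a b) ∧ (∀ a ∈ X, ∀ b, b ∉ B → ¬ ad a b)

open Classical in
/-- the colourings of `S` -/
noncomputable def col (B S : Finset Cell) : Finset (Finset Cell) := B.powerset.filter (Ok B S)

open Classical in
/-- the pairs (set, colouring) -/
noncomputable def PP (B : Finset Cell) : Finset (Finset Cell × Finset Cell) :=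
  (B.powerset ×ˢ B.powerset).filter fun p => Ok B p.1 p.2

lemma sum_PP (B : Finset Cell) (g : Finset Cell × Finset Cell → ℝ) :
    ∑ p ∈ PP B, g p = ∑ S ∈ B.powerset, ∑ X ∈ col B S, g (S, X) := by
  classical
  unfold PP col
  rw [sum_filter, sum_product]
  refine sum_congr rfl fun S _ => ?_
  rw [sum_filter]

open Classical in
lemma mem_col {B S X : Finset Cell} : X ∈ col B S ↔ X ⊆ B ∧ Ok B S X := by
  unfold col
  rw [mem_filter, mem_powerset]

open Classical in
lemma mem_PP {B : Finset Cell} {p : Finset Cell × Finset Cell} :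
    p ∈ PP B ↔ p.1 ⊆ B ∧ Ok B p.1 p.2 := by
  unfold PP
  rw [mem_filter, mem_product, mem_powerset, mem_powerset]
  exact ⟨fun h => ⟨h.1.1, h.2⟩, fun h => ⟨⟨h.1, h.2.1.trans h.1⟩, h.2⟩⟩

lemma empty_mem_col {B S : Finset Cell} : ∅ ∈ col B S := by
  rw [mem_col]
  exact ⟨empty_subset _, empty_subset _, by simp, by simp⟩

/-- the 9 cells around `x` -/
noncomputable def nbh (x : Cell) : Finset Cell :=
  Icc (x.1 - 1) (x.1 + 1) ×ˢ Icc (x.2 - 1) (x.2 + 1)

lemma mem_nbh {x a : Cell} : a ∈ nbh x ↔ ad a x := by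
  unfold nbh ad
  rw [mem_product, mem_Icc, mem_Icc, abs_le, abs_le]
  constructor
  · rintro ⟨⟨h1, h2⟩, h3, h4⟩
    refine ⟨⟨?_, ?_⟩, ?_, ?_⟩ <;> linarith
  · rintro ⟨⟨h1, h2⟩, h3, h4⟩
    refine ⟨⟨?_, ?_⟩, ?_, ?_⟩ <;> linarith

lemma card_nbh (x : Cell) : (nbh x).card = 9 := by
  unfold nbh
  rw [card_product, Int.card_Icc, Int.card_Icc]
  have h1 : (x.1 + 1 + 1 - (x.1 - 1)).toNat = 3 := by
    have : x.1 + 1 + 1 - (x.1 - 1) = 3 := by ring
    rw [this]; rfl
  have h2 : (x.2 + 1 + 1 - (x.2 - 1)).toNat = 3 := by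
    have : x.2 + 1 + 1 - (x.2 - 1) = 3 := by ring
    rw [this]; rfl
  rw [h1, h2]

lemma col_insert {B S : Finset Cell} {x : Cell} (hxS : x ∉ S) :
    (col B S).card ≤ 256 * (col B (insert x S)).card := by
  classical
  have h1 := card_le_mul_card_image (f := fun X : Finset Cell => X ∩ nbh x) (col B S)
    (col B (insert x S)).card ?_
  · have h2 : (image (fun X : Finset Cell => X ∩ nbh x) (col B S)).card ≤ 256 := by
      have hsub : image (fun X : Finset Cell => X ∩ nbh x) (col B S) ⊆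
          ((nbh x).erase x).powerset := by
        intro Y hY
        rw [mem_image] at hY
        obtain ⟨X, hX, rfl⟩ := hY
        rw [mem_powerset]
        intro a ha
        rw [mem_inter] at ha
        rw [mem_erase]
        refine ⟨?_, ha.2⟩
        rintro rfl
        rw [mem_col] at hX
        exact hxS (hX.2.1 ha.1)
      refine (card_le_card hsub).trans ?_
      rw [card_powerset, card_erase_of_mem (mem_nbh.2 (ad_refl x)), card_nbh]
      norm_num
    calc (col B S).card ≤ _ := h1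
      _ ≤ (col B (insert x S)).card * 256 := Nat.mul_le_mul_left _ h2
      _ = _ := Nat.mul_comm _ _
  · intro Y hY
    rw [mem_image] at hY
    obtain ⟨X0, hX0, rfl⟩ := hY
    refine card_le_card_of_injOn (fun X => symmDiff X X0) ?_ ?_
    · intro X hX
      rw [mem_coe, mem_filter] at hX
      obtain ⟨hX, hXe⟩ := hX
      rw [mem_col] at hX hX0
      obtain ⟨hXB, hX1, hX2, hX3⟩ := hX
      obtain ⟨hYB, hY1, hY2, hY3⟩ := hX0
      rw [mem_coe, mem_col]
      have hor : ∀ a, a ∈ symmDiff X X0 → a ∈ X ∨ a ∈ X0 := by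
        intro a ha
        rw [mem_symmDiff] at ha
        tauto
      refine ⟨?_, ?_, ?_, ?_⟩
      · intro a ha
        rcases hor a ha with h | h
        · exact hXB h
        · exact hYB h
      · intro a ha
        rcases hor a ha with h | h
        · exact mem_insert_of_mem (hX1 h)
        · exact mem_insert_of_mem (hY1 h)
      · intro a ha b hb hbn had
        rw [mem_insert] at hb
        rcases hb with rfl | hb
        · have h3 : a ∈ nbh b := mem_nbh.2 had
          have h4 : a ∈ X ∩ nbh b ↔ a ∈ X0 ∩ nbh b := by rw [hXe]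
          rw [mem_inter, mem_inter] at h4
          rw [mem_symmDiff] at ha
          tauto
        · rw [mem_symmDiff] at ha hbn
          by_cases hbX : b ∈ X
          · have hbY : b ∈ X0 := by tauto
            rcases ha with ⟨ha1, ha2⟩ | ⟨ha1, ha2⟩
            · exact hY2 b hbY a (hX1 ha1) ha2 (ad_symm had)
            · exact hX2 b hbX a (hY1 ha1) ha2 (ad_symm had)
          · have hbY : b ∉ X0 := by tauto
            rcases ha with ⟨ha1, ha2⟩ | ⟨ha1, ha2⟩
            · exact hX2 a ha1 b hb hbX had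
            · exact hY2 a ha1 b hb hbY had
      · intro a ha b hb
        rcases hor a ha with h | h
        · exact hX3 a h b hb
        · exact hY3 a h b hb
    · intro X _ X' _ h
      exact symmDiff_left_injective X0 h

/-- the weight of `S` -/
noncomputable def w (B : Finset Cell) (lam : ℝ) (S : Finset Cell) : ℝ :=
  lam ^ S.card * ((col B S).card : ℝ)

lemma w_nonneg {B : Finset Cell} {lam : ℝ} (hl : 0 ≤ lam) (S : Finset Cell) : 0 ≤ w B lam S := by
  unfold w; positivity

lemma w_insert {B S : Finset Cell} {lam : ℝ} (hl : 0 ≤ lam) {x : Cell}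
    (hxS : x ∉ S) : lam / 256 * w B lam S ≤ w B lam (insert x S) := by
  unfold w
  rw [card_insert_of_notMem hxS, pow_succ]
  have h := col_insert (B := B) hxS
  have h' : ((col B S).card : ℝ) ≤ 256 * ((col B (insert x S)).card : ℝ) := by exact_mod_cast h
  have h2 : 0 ≤ lam ^ S.card * lam := by positivity
  nlinarith

lemma vac {B : Finset Cell} {lam : ℝ} (hl : 0 ≤ lam) (T : Finset Cell) (hT : T ⊆ B) :
    (1 + lam / 256) ^ T.card * ∑ S ∈ (B \ T).powerset, w B lam S ≤
      ∑ S ∈ B.powerset, w B lam S := by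
  classical
  induction T using Finset.induction_on with
  | empty => simp
  | insert x T hx ih =>
    have hTB : T ⊆ B := (subset_insert x T).trans hT
    have hxB : x ∈ B := hT (mem_insert_self x T)
    refine le_trans ?_ (ih hTB)
    rw [card_insert_of_notMem hx, pow_succ, mul_assoc]
    refine mul_le_mul_of_nonneg_left ?_ (by positivity)
    have e1 : B \ T = insert x (B \ insert x T) := by
      ext a
      simp only [mem_sdiff, mem_insert]
      constructor
      · rintro ⟨h1, h2⟩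
        by_cases hax : a = x
        · exact Or.inl hax
        · exact Or.inr ⟨h1, by tauto⟩
      · rintro (rfl | ⟨h1, h2⟩)
        · exact ⟨hxB, hx⟩
        · exact ⟨h1, by tauto⟩
    have hx' : x ∉ B \ insert x T := by simp
    rw [e1, sum_powerset_insert hx', add_mul, one_mul, mul_sum]
    gcongr with S hS
    rw [mem_powerset] at hS
    exact w_insert hl fun h => hx' (hS h)

/-! ### the multiscale structure -/

/-- sub-box indices -/
def sub (a : ℤ) (i : Fin 3) : ℤ := 3 * a + ((i : ℕ) : ℤ) - 1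

/-- a box of scale `0` is bad if its cell is not in `S`; a box of scale `n + 1` is bad if at
least two of its nine sub-boxes are bad -/
def bad (S : Finset Cell) : ℕ → ℤ → ℤ → Prop
  | 0, a, b => (a, b) ∉ S
  | n + 1, a, b => ∃ p r : Fin 3 × Fin 3, p ≠ r ∧ bad S n (sub a p.1) (sub b p.2) ∧
      bad S n (sub a r.1) (sub b r.2)

open Classical in
/-- certificates for badness -/
noncomputable def cert : ℕ → ℤ → ℤ → Finset (Finset Cell)
  | 0, a, b => {{(a, b)}}
  | n + 1, a, b => (univ : Finset (Fin 3 × Fin 3)).offDiag.biUnion fun pr =>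
      ((cert n (sub a pr.1.1) (sub b pr.1.2)) ×ˢ (cert n (sub a pr.2.1) (sub b pr.2.2))).image
        fun t => t.1 ∪ t.2

/-- radius of the boxes of scale `n` -/
def hh : ℕ → ℤ
  | 0 => 0
  | n + 1 => 3 * hh n + 1

lemma hh_eq (n : ℕ) : 2 * hh n + 1 = 3 ^ n := by
  induction n with
  | zero => simp [hh]
  | succ n ih => rw [hh, pow_succ, ← ih]; ring

lemma hh_nonneg (n : ℕ) : 0 ≤ hh n := by
  induction n with
  | zero => simp [hh]
  | succ n ih => rw [hh]; linarith

lemma hh_mono {m n : ℕ} (h : m ≤ n) : hh m ≤ hh n := by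
  induction n, h using Nat.le_induction with
  | base => exact le_rfl
  | succ n _ ih => rw [hh]; linarith [hh_nonneg n]

lemma card_offDiag72 : ((univ : Finset (Fin 3 × Fin 3)).offDiag).card = 72 := by
  rw [Finset.offDiag_card]; simp

lemma sum_biUnion_le {ι κ : Type*} [DecidableEq κ] (s : Finset ι) (t : ι → Finset κ)
    {f : κ → ℝ} (hf : ∀ x, 0 ≤ f x) : ∑ x ∈ s.biUnion t, f x ≤ ∑ i ∈ s, ∑ x ∈ t i, f x := by
  classical
  induction s using Finset.induction_on with
  | empty => simp
  | insert a s ha ih =>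
    rw [biUnion_insert, sum_insert ha]
    have h1 : ∑ x ∈ t a ∪ s.biUnion t, f x ≤ ∑ x ∈ t a, f x + ∑ x ∈ s.biUnion t, f x := by
      rw [← sum_union_inter]
      have : 0 ≤ ∑ x ∈ t a ∩ s.biUnion t, f x := sum_nonneg fun x _ => hf x
      linarith
    linarith

lemma cert_card (n : ℕ) : ∀ a b, 72 * (cert n a b).card ≤ 72 ^ (2 ^ n) := by
  classical
  induction n with
  | zero => intro a b; simp [cert]
  | succ n ih =>
    intro a b
    have h1 : (cert (n + 1) a b).card ≤
        ∑ pr ∈ (univ : Finset (Fin 3 × Fin 3)).offDiag,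
          (cert n (sub a pr.1.1) (sub b pr.1.2)).card * (cert n (sub a pr.2.1) (sub b pr.2.2)).card := by
      rw [cert]
      refine card_biUnion_le.trans (sum_le_sum fun pr _ => ?_)
      refine card_image_le.trans ?_
      rw [card_product]
    have h2 : 72 * (72 * ∑ pr ∈ (univ : Finset (Fin 3 × Fin 3)).offDiag,
          (cert n (sub a pr.1.1) (sub b pr.1.2)).card *
            (cert n (sub a pr.2.1) (sub b pr.2.2)).card) ≤ 72 * 72 ^ (2 ^ (n + 1)) := by
      have h3 : ∀ pr ∈ (univ : Finset (Fin 3 × Fin 3)).offDiag,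
          72 * (72 * ((cert n (sub a pr.1.1) (sub b pr.1.2)).card *
            (cert n (sub a pr.2.1) (sub b pr.2.2)).card)) ≤ 72 ^ (2 ^ (n + 1)) := by
        intro pr _
        have h4 := Nat.mul_le_mul (ih (sub a pr.1.1) (sub b pr.1.2))
          (ih (sub a pr.2.1) (sub b pr.2.2))
        have h5 : 72 ^ (2 ^ (n + 1)) = 72 ^ (2 ^ n) * 72 ^ (2 ^ n) := by
          rw [← pow_add]; congr 1; rw [pow_succ]; ring
        rw [h5]
        refine le_trans (le_of_eq ?_) h4
        ring
      rw [mul_sum, mul_sum]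
      refine (sum_le_sum h3).trans ?_
      rw [sum_const, card_offDiag72, smul_eq_mul]
    have h6 := Nat.le_of_mul_le_mul_left h2 (by norm_num)
    exact (Nat.mul_le_mul_left _ h1).trans h6

lemma sub_dist {n : ℕ} {c a : ℤ} {i : Fin 3} (h : |c - 3 ^ n * sub a i| ≤ hh n) :
    |c - 3 ^ (n + 1) * a| ≤ hh (n + 1) := by
  have e := hh_eq n
  have hn := hh_nonneg n
  rw [hh, pow_succ]
  unfold sub at h
  rw [← e] at h ⊢
  fin_cases i
  · simp only [Nat.cast_zero] at h
    rw [abs_le] at h ⊢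
    constructor <;> nlinarith [h.1, h.2]
  · simp only [Nat.cast_one] at h
    rw [abs_le] at h ⊢
    constructor <;> nlinarith [h.1, h.2]
  · simp only [Nat.cast_ofNat] at h
    rw [abs_le] at h ⊢
    constructor <;> nlinarith [h.1, h.2]

lemma sub_inj {n : ℕ} {c a : ℤ} {i j : Fin 3} (h : |c - 3 ^ n * sub a i| ≤ hh n)
    (h' : |c - 3 ^ n * sub a j| ≤ hh n) : i = j := by
  have e := hh_eq n
  have hn := hh_nonneg n
  by_contra hij
  rw [abs_le] at h h'
  have h1 : (1 : ℤ) ≤ sub a i - sub a j ∨ (1 : ℤ) ≤ sub a j - sub a i := by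
    unfold sub
    have : (i : ℕ) ≠ (j : ℕ) := fun h => hij (Fin.ext h)
    omega
  rcases h1 with h1 | h1
  · have : (3 : ℤ) ^ n * 1 ≤ 3 ^ n * (sub a i - sub a j) :=
      mul_le_mul_of_nonneg_left h1 (by positivity)
    nlinarith [h.1, h.2, h'.1, h'.2]
  · have : (3 : ℤ) ^ n * 1 ≤ 3 ^ n * (sub a j - sub a i) :=
      mul_le_mul_of_nonneg_left h1 (by positivity)
    nlinarith [h.1, h.2, h'.1, h'.2]

lemma cert_mem (n : ℕ) : ∀ a b, ∀ T ∈ cert n a b, T.card = 2 ^ n ∧
    ∀ c ∈ T, |c.1 - 3 ^ n * a| ≤ hh n ∧ |c.2 - 3 ^ n * b| ≤ hh n := by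
  classical
  induction n with
  | zero =>
    intro a b T hT
    rw [cert, mem_singleton] at hT
    subst hT
    simp [hh]
  | succ n ih =>
    intro a b T hT
    rw [cert, mem_biUnion] at hT
    obtain ⟨pr, hpr, hT⟩ := hT
    rw [mem_image] at hT
    obtain ⟨t, ht, rfl⟩ := hT
    rw [mem_product] at ht
    obtain ⟨ht1, ht2⟩ := ht
    obtain ⟨c1, d1⟩ := ih _ _ _ ht1
    obtain ⟨c2, d2⟩ := ih _ _ _ ht2
    rw [mem_offDiag] at hpr
    constructor
    · rw [card_union_of_disjoint, c1, c2, pow_succ]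
      · ring
      · rw [disjoint_left]
        intro c hc1 hc2
        refine hpr.2.2 (Prod.ext ?_ ?_)
        · exact sub_inj (d1 c hc1).1 (d2 c hc2).1
        · exact sub_inj (d1 c hc1).2 (d2 c hc2).2
    · intro c hc
      rw [mem_union] at hc
      rcases hc with hc | hc
      · exact ⟨sub_dist (d1 c hc).1, sub_dist (d1 c hc).2⟩
      · exact ⟨sub_dist (d2 c hc).1, sub_dist (d2 c hc).2⟩

lemma bad_cert (S : Finset Cell) (n : ℕ) : ∀ a b, bad S n a b → ∃ T ∈ cert n a b, Disjoint T S := by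
  classical
  induction n with
  | zero =>
    intro a b h
    refine ⟨{(a, b)}, by simp [cert], ?_⟩
    rw [disjoint_singleton_left]
    exact h
  | succ n ih =>
    intro a b h
    rw [bad] at h
    obtain ⟨p, r, hpr, h1, h2⟩ := h
    obtain ⟨T1, hT1, e1⟩ := ih _ _ h1
    obtain ⟨T2, hT2, e2⟩ := ih _ _ h2
    refine ⟨T1 ∪ T2, ?_, disjoint_union_left.2 ⟨e1, e2⟩⟩
    rw [cert, mem_biUnion]
    refine ⟨(p, r), ?_, ?_⟩
    · rw [mem_offDiag]; exact ⟨mem_univ _, mem_univ _, hpr⟩
    · rw [mem_image]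
      exact ⟨(T1, T2), mem_product.2 ⟨hT1, hT2⟩, rfl⟩

/-- the box of scale `n` around the origin -/
noncomputable def BB (n : ℕ) : Finset Cell := Icc (-hh n) (hh n) ×ˢ Icc (-hh n) (hh n)

lemma mem_BB {n : ℕ} {c : Cell} : c ∈ BB n ↔ |c.1| ≤ hh n ∧ |c.2| ≤ hh n := by
  unfold BB
  rw [mem_product, mem_Icc, mem_Icc, abs_le, abs_le]

open Classical in
lemma bad_prob {N k : ℕ} (hk : k ≤ N) {lam : ℝ} (hl : 0 ≤ lam) :
    ∑ S ∈ (BB N).powerset.filter (fun S => bad S k 0 0), w (BB N) lam S ≤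
      (72 / (1 + lam / 256)) ^ (2 ^ k) / 72 * ∑ S ∈ (BB N).powerset, w (BB N) lam S := by
  set Z := ∑ S ∈ (BB N).powerset, w (BB N) lam S with hZ
  have hZ0 : 0 ≤ Z := sum_nonneg fun S _ => w_nonneg hl S
  have hr : 0 < 1 + lam / 256 := by positivity
  have h1 : (BB N).powerset.filter (fun S => bad S k 0 0) ⊆
      (cert k 0 0).biUnion fun T => (BB N \ T).powerset := by
    intro S hS
    rw [mem_filter, mem_powerset] at hS
    obtain ⟨T, hT, hd⟩ := bad_cert S k 0 0 hS.2
    rw [mem_biUnion]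
    refine ⟨T, hT, ?_⟩
    rw [mem_powerset, subset_sdiff]
    exact ⟨hS.1, hd.symm⟩
  have h2 : ∀ T ∈ cert k 0 0, ∑ S ∈ (BB N \ T).powerset, w (BB N) lam S ≤
      Z / (1 + lam / 256) ^ (2 ^ k) := by
    intro T hT
    obtain ⟨hc, hd⟩ := cert_mem k 0 0 T hT
    have hTB : T ⊆ BB N := by
      intro c hc
      have := hd c hc
      rw [mul_zero, sub_zero, sub_zero] at this
      exact mem_BB.2 ⟨this.1.trans (hh_mono hk), this.2.trans (hh_mono hk)⟩
    have := vac hl T hTB
    rw [hc] at this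
    rw [le_div_iff₀ (by positivity), mul_comm]
    exact this
  calc ∑ S ∈ (BB N).powerset.filter (fun S => bad S k 0 0), w (BB N) lam S
      ≤ ∑ S ∈ (cert k 0 0).biUnion fun T => (BB N \ T).powerset, w (BB N) lam S :=
        sum_le_sum_of_subset_of_nonneg h1 fun S _ _ => w_nonneg hl S
    _ ≤ ∑ T ∈ cert k 0 0, ∑ S ∈ (BB N \ T).powerset, w (BB N) lam S :=
        sum_biUnion_le _ _ fun S => w_nonneg hl S
    _ ≤ ∑ _T ∈ cert k 0 0, Z / (1 + lam / 256) ^ (2 ^ k) := sum_le_sum h2
    _ = ((cert k 0 0).card : ℝ) * (Z / (1 + lam / 256) ^ (2 ^ k)) := by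
        rw [sum_const, nsmul_eq_mul]
    _ ≤ (72 ^ (2 ^ k) / 72) * (Z / (1 + lam / 256) ^ (2 ^ k)) := by
        refine mul_le_mul_of_nonneg_right ?_ (by positivity)
        rw [le_div_iff₀ (by norm_num), mul_comm]
        exact_mod_cast cert_card k 0 0
    _ = _ := by rw [div_pow]; field_simp

end Pool.Agent.H719R3.Perc
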