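import Pool.Agent.H719R3.Perc

/-!
# Colourings of random sets of cells: the colour of the origin
-/

open Finset

set_option linter.unusedSectionVars false

namespace Pool.Agent.H719R3.Perc

/-- all good sub-boxes (recursively) have colour `κ` -/
def HasCol (S X : Finset Cell) : ℕ → ℤ → ℤ → Bool → Prop
  | 0, a, b, κ => (a, b) ∈ S ∧ ((a, b) ∈ X ↔ κ = true)
  | n + 1, a, b, κ => ∀ i j : Fin 3, ¬ bad S n (sub a i) (sub b j) →
      HasCol S X n (sub a i) (sub b j) κ

lemma pig {P Q : Fin 3 → Prop} (hP : ∀ i j, i ≠ j → ¬ (P i ∧ P j))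
    (hQ : ∀ i j, i ≠ j → ¬ (Q i ∧ Q j)) : ∃ j, ¬ P j ∧ ¬ Q j := by
  by_contra h
  push Not at h
  have p01 := hP 0 1 (by decide)
  have p02 := hP 0 2 (by decide)
  have p12 := hP 1 2 (by decide)
  have q01 := hQ 0 1 (by decide)
  have q02 := hQ 0 2 (by decide)
  have q12 := hQ 1 2 (by decide)
  have h0 := h 0
  have h1 := h 1
  have h2 := h 2
  tauto

lemma sub_succ_zero (a : ℤ) : sub (a + 1) 0 = sub a 2 + 1 := by
  unfold sub; simp; ring

lemma sub_one (a : ℤ) : sub a 1 = sub a 0 + 1 := by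
  unfold sub; simp

lemma sub_two (a : ℤ) : sub a 2 = sub a 1 + 1 := by
  unfold sub; simp; ring

variable {S X : Finset Cell}

lemma colH (hX : ∀ a ∈ X, ∀ b ∈ S, b ∉ X → ¬ ad a b) (n : ℕ) : ∀ a b κ κ',
    ¬ bad S n a b → ¬ bad S n (a + 1) b → HasCol S X n a b κ → HasCol S X n (a + 1) b κ' →
      κ = κ' := by
  induction n with
  | zero =>
    intro a b κ κ' _ _ h1 h2
    rw [HasCol] at h1 h2
    have had : ad (a, b) (a + 1, b) := by
      unfold ad; constructor <;> simp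
    rcases κ with _ | _ <;> rcases κ' with _ | _
    · rfl
    · exact absurd (ad_symm had) (hX _ (h2.2.2 rfl) _ h1.1 fun h => by simpa using h1.2.1 h)
    · exact absurd had (hX _ (h1.2.2 rfl) _ h2.1 fun h => by simpa using h2.2.1 h)
    · rfl
  | succ n ih =>
    intro a b κ κ' hb hb' h1 h2
    rw [bad] at hb hb'
    push Not at hb hb'
    obtain ⟨j, hj1, hj2⟩ := pig (P := fun j => bad S n (sub a 2) (sub b j))
      (Q := fun j => bad S n (sub (a + 1) 0) (sub b j))
      (fun i j hij h => hb (2, i) (2, j) (fun he => hij (Prod.ext_iff.1 he).2) h.1 h.2)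
      (fun i j hij h => hb' (0, i) (0, j) (fun he => hij (Prod.ext_iff.1 he).2) h.1 h.2)
    have e1 := h1 2 j hj1
    have e2 := h2 0 j hj2
    rw [sub_succ_zero] at e2 hj2
    exact ih _ _ _ _ hj1 hj2 e1 e2

lemma colV (hX : ∀ a ∈ X, ∀ b ∈ S, b ∉ X → ¬ ad a b) (n : ℕ) : ∀ a b κ κ',
    ¬ bad S n a b → ¬ bad S n a (b + 1) → HasCol S X n a b κ → HasCol S X n a (b + 1) κ' →
      κ = κ' := by
  induction n with
  | zero =>
    intro a b κ κ' _ _ h1 h2
    rw [HasCol] at h1 h2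
    have had : ad (a, b) (a, b + 1) := by
      unfold ad; constructor <;> simp
    rcases κ with _ | _ <;> rcases κ' with _ | _
    · rfl
    · exact absurd (ad_symm had) (hX _ (h2.2.2 rfl) _ h1.1 fun h => by simpa using h1.2.1 h)
    · exact absurd had (hX _ (h1.2.2 rfl) _ h2.1 fun h => by simpa using h2.2.1 h)
    · rfl
  | succ n ih =>
    intro a b κ κ' hb hb' h1 h2
    rw [bad] at hb hb'
    push Not at hb hb'
    obtain ⟨i, hi1, hi2⟩ := pig (P := fun i => bad S n (sub a i) (sub b 2))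
      (Q := fun i => bad S n (sub a i) (sub (b + 1) 0))
      (fun i j hij h => hb (i, 2) (j, 2) (fun he => hij (Prod.ext_iff.1 he).1) h.1 h.2)
      (fun i j hij h => hb' (i, 0) (j, 0) (fun he => hij (Prod.ext_iff.1 he).1) h.1 h.2)
    have e1 := h1 i 2 hi1
    have e2 := h2 i 0 hi2
    rw [sub_succ_zero] at e2 hi2
    exact ih _ _ _ _ hi1 hi2 e1 e2

lemma grid {G : Fin 3 → Fin 3 → Prop} {k : Fin 3 → Fin 3 → Bool}
    (hG : ∀ p r : Fin 3 × Fin 3, p ≠ r → G p.1 p.2 ∨ G r.1 r.2)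
    (hH : ∀ j, (G 0 j → G 1 j → k 0 j = k 1 j) ∧ (G 1 j → G 2 j → k 1 j = k 2 j))
    (hV : ∀ i, (G i 0 → G i 1 → k i 0 = k i 1) ∧ (G i 1 → G i 2 → k i 1 = k i 2)) :
    ∃ κ, ∀ i j, G i j → k i j = κ := by
  have row : ∀ j, (∀ i, G i j) → ∀ i i', k i j = k i' j := by
    intro j h
    have h1 := (hH j).1 (h 0) (h 1)
    have h2 := (hH j).2 (h 1) (h 2)
    have h3 : ∀ i, k i j = k 0 j := by
      intro i
      fin_cases i
      · rfl
      · exact h1.symm
      · exact (h1.trans h2).symm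
    intro i i'
    rw [h3 i, h3 i']
  have colm : ∀ i, (∀ j, G i j) → ∀ j j', k i j = k i j' := by
    intro i h
    have h1 := (hV i).1 (h 0) (h 1)
    have h2 := (hV i).2 (h 1) (h 2)
    have h3 : ∀ j, k i j = k i 0 := by
      intro j
      fin_cases j
      · rfl
      · exact h1.symm
      · exact (h1.trans h2).symm
    intro j j'
    rw [h3 j, h3 j']
  obtain ⟨r, hr⟩ : ∃ r, ∀ i, G i r := by
    by_contra h
    push Not at h
    obtain ⟨i0, h0⟩ := h 0
    obtain ⟨i1, h1⟩ := h 1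
    rcases hG (i0, 0) (i1, 1) (fun he => by simpa using (Prod.ext_iff.1 he).2) with h2 | h2
    · exact h0 h2
    · exact h1 h2
  obtain ⟨s, hs⟩ : ∃ s, ∀ j, G s j := by
    by_contra h
    push Not at h
    obtain ⟨i0, h0⟩ := h 0
    obtain ⟨i1, h1⟩ := h 1
    rcases hG (0, i0) (1, i1) (fun he => by simpa using (Prod.ext_iff.1 he).1) with h2 | h2
    · exact h0 h2
    · exact h1 h2
  refine ⟨k s r, fun i j hij => ?_⟩
  by_cases h1 : ∀ i', G i' j
  · rw [row j h1 i s, colm s hs j r]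
  · by_cases h2 : ∀ j', G i j'
    · rw [colm i h2 j r, row r hr i s]
    · push Not at h1 h2
      obtain ⟨i', hi'⟩ := h1
      obtain ⟨j', hj'⟩ := h2
      rcases hG (i', j) (i, j') (fun he => by
        have e1 : i' = i := (Prod.ext_iff.1 he).1
        subst e1
        exact hi' hij) with h3 | h3
      · exact absurd h3 hi'
      · exact absurd h3 hj'

lemma exists_col (hX : ∀ a ∈ X, ∀ b ∈ S, b ∉ X → ¬ ad a b) (n : ℕ) : ∀ a b,
    ¬ bad S n a b → ∃ κ, HasCol S X n a b κ := by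
  classical
  induction n with
  | zero =>
    intro a b h
    rw [bad, not_not] at h
    exact ⟨decide ((a, b) ∈ X), h, by simp⟩
  | succ n ih =>
    intro a b hb
    rw [bad] at hb
    push Not at hb
    have h1 : ∀ i j : Fin 3, ∃ κ, ¬ bad S n (sub a i) (sub b j) →
        HasCol S X n (sub a i) (sub b j) κ := by
      intro i j
      by_cases h : bad S n (sub a i) (sub b j)
      · exact ⟨true, fun h' => absurd h h'⟩
      · obtain ⟨κ, hκ⟩ := ih _ _ h
        exact ⟨κ, fun _ => hκ⟩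
    choose k hk using h1
    obtain ⟨κ, hκ⟩ := grid (G := fun i j => ¬ bad S n (sub a i) (sub b j)) (k := k)
      (fun p r hpr => by
        by_cases h : bad S n (sub a p.1) (sub b p.2)
        · exact Or.inr (hb p r hpr h)
        · exact Or.inl h)
      (fun j => ⟨fun g0 g1 => by
          have e0 := hk _ _ g0
          have e1 := hk _ _ g1
          rw [sub_one] at e1 g1
          exact colH hX n _ _ _ _ g0 g1 e0 e1,
        fun g1 g2 => by
          have e1 := hk _ _ g1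
          have e2 := hk _ _ g2
          rw [sub_two] at e2 g2
          exact colH hX n _ _ _ _ g1 g2 e1 e2⟩)
      (fun i => ⟨fun g0 g1 => by
          have e0 := hk _ _ g0
          have e1 := hk _ _ g1
          rw [sub_one b] at e1 g1
          exact colV hX n _ _ _ _ g0 g1 e0 e1,
        fun g1 g2 => by
          have e1 := hk _ _ g1
          have e2 := hk _ _ g2
          rw [sub_two b] at e2 g2
          exact colV hX n _ _ _ _ g1 g2 e1 e2⟩)
    refine ⟨κ, fun i j hij => ?_⟩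
    have := hk i j hij
    rwa [hκ i j hij] at this

lemma face (n : ℕ) : ∀ a b κ, ¬ bad S n a b → HasCol S X n a b κ →
    ∃ c ∈ S, c.1 = 3 ^ n * a - hh n ∧ |c.2 - 3 ^ n * b| ≤ hh n ∧ (c ∈ X ↔ κ = true) := by
  induction n with
  | zero =>
    intro a b κ _ h
    rw [HasCol] at h
    exact ⟨(a, b), h.1, by simp [hh], by simp [hh], h.2⟩
  | succ n ih =>
    intro a b κ hb h
    rw [bad] at hb
    push Not at hb
    have h1 : ∃ j : Fin 3, ¬ bad S n (sub a 0) (sub b j) := by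
      by_contra hcon
      push Not at hcon
      exact hb (0, 0) (0, 1) (by decide) (hcon 0) (hcon 1)
    obtain ⟨j, hj⟩ := h1
    obtain ⟨c, hc, e1, e2, e3⟩ := ih _ _ _ hj (h 0 j hj)
    refine ⟨c, hc, ?_, sub_dist e2, e3⟩
    rw [e1, hh, pow_succ, ← hh_eq n]
    unfold sub
    simp
    ring

lemma origin (n : ℕ) : ∀ κ, (∀ k ≤ n, ¬ bad S k 0 0) → HasCol S X n 0 0 κ →
    ((0, 0) : Cell) ∈ S ∧ (((0, 0) : Cell) ∈ X ↔ κ = true) := by
  induction n with
  | zero => intro κ _ h; exact h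
  | succ n ih =>
    intro κ hb h
    have e : sub 0 1 = 0 := by unfold sub; simp
    have h1 := h 1 1
    rw [e] at h1
    exact ih κ (fun k hk => hb k (hk.trans (Nat.le_succ n))) (h1 (hb n (Nat.le_succ n)))

lemma main_color {N : ℕ} (hok : Ok (BB N) S X) (hb : ∀ k ≤ N, ¬ bad S k 0 0) :
    ((0, 0) : Cell) ∈ S ∧ ((0, 0) : Cell) ∉ X := by
  obtain ⟨_, hX2, hX3⟩ := hok
  obtain ⟨κ, hκ⟩ := exists_col hX2 N 0 0 (hb N le_rfl)
  have h1 := origin N κ hb hκ
  refine ⟨h1.1, fun h => ?_⟩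
  have hk := h1.2.1 h
  obtain ⟨c, _, e1, e2, e3⟩ := face N 0 0 κ (hb N le_rfl) hκ
  have hc := e3.2 hk
  refine hX3 c hc (c.1 - 1, c.2) ?_ ?_
  · rw [mem_BB]
    rintro ⟨h2, _⟩
    simp only at h2
    rw [e1, abs_le] at h2
    have := h2.1
    linarith
  · unfold ad
    constructor <;> simp

open Classical in
lemma bad_total {N : ℕ} {lam : ℝ} (hl : 65536 ≤ lam) :
    ∑ S ∈ (BB N).powerset.filter (fun S => ∃ k ≤ N, bad S k 0 0), w (BB N) lam S ≤
      1 / 4 * ∑ S ∈ (BB N).powerset, w (BB N) lam S := by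
  have hl0 : 0 ≤ lam := by linarith
  set Z := ∑ S ∈ (BB N).powerset, w (BB N) lam S with hZ
  have hZ0 : 0 ≤ Z := sum_nonneg fun S _ => w_nonneg hl0 S
  have h1 : (BB N).powerset.filter (fun S => ∃ k ≤ N, bad S k 0 0) ⊆
      (range (N + 1)).biUnion fun k => (BB N).powerset.filter (fun S => bad S k 0 0) := by
    intro S hS
    rw [mem_filter] at hS
    obtain ⟨hS, k, hk, hbk⟩ := hS
    rw [mem_biUnion]
    exact ⟨k, mem_range.2 (Nat.lt_succ_of_le hk), mem_filter.2 ⟨hS, hbk⟩⟩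
  have hx : 72 / (1 + lam / 256) ≤ 1 / 2 := by
    rw [div_le_iff₀ (by positivity)]
    linarith
  have hx0 : 0 ≤ 72 / (1 + lam / 256) := by positivity
  have h2 : ∀ k ∈ range (N + 1), ∑ S ∈ (BB N).powerset.filter (fun S => bad S k 0 0),
      w (BB N) lam S ≤ (1 / 2) ^ (k + 1) / 72 * Z := by
    intro k hk
    refine (bad_prob (Nat.lt_succ_iff.1 (mem_range.1 hk)) hl0).trans ?_
    refine mul_le_mul_of_nonneg_right ?_ hZ0
    refine div_le_div_of_nonneg_right ?_ (by norm_num)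
    calc (72 / (1 + lam / 256)) ^ 2 ^ k ≤ (1 / 2 : ℝ) ^ 2 ^ k := pow_le_pow_left₀ hx0 hx _
      _ ≤ (1 / 2) ^ (k + 1) :=
        pow_le_pow_of_le_one (by norm_num) (by norm_num) (Nat.lt_two_pow_self)
  have h3 : ∑ k ∈ range (N + 1), (1 / 2 : ℝ) ^ (k + 1) ≤ 1 := by
    have : ∀ n : ℕ, ∑ k ∈ range n, (1 / 2 : ℝ) ^ (k + 1) = 1 - (1 / 2) ^ n := by
      intro n
      induction n with
      | zero => simp
      | succ n ih => rw [sum_range_succ, ih, pow_succ]; ring
    rw [this]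
    have : (0 : ℝ) ≤ (1 / 2) ^ (N + 1) := by positivity
    linarith
  calc ∑ S ∈ (BB N).powerset.filter (fun S => ∃ k ≤ N, bad S k 0 0), w (BB N) lam S
      ≤ ∑ S ∈ (range (N + 1)).biUnion fun k => (BB N).powerset.filter (fun S => bad S k 0 0),
          w (BB N) lam S := sum_le_sum_of_subset_of_nonneg h1 fun S _ _ => w_nonneg hl0 S
    _ ≤ ∑ k ∈ range (N + 1), ∑ S ∈ (BB N).powerset.filter (fun S => bad S k 0 0),
          w (BB N) lam S := sum_biUnion_le _ _ fun S => w_nonneg hl0 S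
    _ ≤ ∑ k ∈ range (N + 1), (1 / 2) ^ (k + 1) / 72 * Z := sum_le_sum h2
    _ = (∑ k ∈ range (N + 1), (1 / 2 : ℝ) ^ (k + 1)) * (Z / 72) := by
        rw [sum_mul]; refine sum_congr rfl fun k _ => ?_; ring
    _ ≤ 1 * (Z / 72) := mul_le_mul_of_nonneg_right h3 (by positivity)
    _ ≤ 1 / 4 * Z := by linarith

/-- partition function -/
noncomputable def ZZ (N : ℕ) (lam : ℝ) : ℝ := ∑ p ∈ PP (BB N), lam ^ p.1.card

lemma ZZ_eq (N : ℕ) (lam : ℝ) : ZZ N lam = ∑ S ∈ (BB N).powerset, w (BB N) lam S := by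
  unfold ZZ
  rw [sum_PP]
  refine sum_congr rfl fun S _ => ?_
  simp only [sum_const, nsmul_eq_mul, w]
  ring

lemma ZZ_pos (N : ℕ) {lam : ℝ} (hl : 0 < lam) : 0 < ZZ N lam := by
  unfold ZZ
  refine sum_pos (fun p _ => by positivity) ⟨(∅, ∅), ?_⟩
  rw [mem_PP]
  exact ⟨empty_subset _, empty_subset _, by simp, by simp⟩

open Classical in
lemma typeB_le {N : ℕ} {lam : ℝ} (hl : 65536 ≤ lam) :
    ∑ p ∈ PP (BB N), lam ^ p.1.card * (if ((0, 0) : Cell) ∈ p.2 then 1 else 0) ≤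
      1 / 4 * ZZ N lam := by
  have hl0 : 0 ≤ lam := by linarith
  rw [ZZ_eq]
  refine le_trans ?_ (bad_total hl)
  rw [sum_PP, sum_filter]
  refine sum_le_sum fun S _ => ?_
  split_ifs with h
  · unfold w
    calc ∑ X ∈ col (BB N) S, lam ^ S.card * (if ((0, 0) : Cell) ∈ X then 1 else 0)
        ≤ ∑ X ∈ col (BB N) S, lam ^ S.card := by
          refine sum_le_sum fun X _ => ?_
          split_ifs
          · simp
          · simp; positivity
      _ = _ := by rw [sum_const, nsmul_eq_mul, mul_comm]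
  · refine le_of_eq (sum_eq_zero fun X hX => ?_)
    push Not at h
    rw [mem_col] at hX
    simp [(main_color hX.2 h).2]

open Classical in
lemma typeA_ge {N : ℕ} {lam : ℝ} (hl : 65536 ≤ lam) :
    3 / 4 * ZZ N lam ≤ ∑ p ∈ PP (BB N), lam ^ p.1.card *
      (if ((0, 0) : Cell) ∈ p.1 ∧ ((0, 0) : Cell) ∉ p.2 then 1 else 0) := by
  have hl0 : 0 ≤ lam := by linarith
  have h1 := bad_total (N := N) hl
  rw [← ZZ_eq] at h1
  have h2 : ZZ N lam - ∑ S ∈ (BB N).powerset.filter (fun S => ∃ k ≤ N, bad S k 0 0),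
      w (BB N) lam S = ∑ S ∈ (BB N).powerset.filter (fun S => ¬ ∃ k ≤ N, bad S k 0 0),
      w (BB N) lam S := by
    rw [ZZ_eq, ← sum_filter_add_sum_filter_not (BB N).powerset (fun S => ∃ k ≤ N, bad S k 0 0)]
    ring
  have h3 : ∑ S ∈ (BB N).powerset.filter (fun S => ¬ ∃ k ≤ N, bad S k 0 0), w (BB N) lam S ≤
      ∑ p ∈ PP (BB N), lam ^ p.1.card *
      (if ((0, 0) : Cell) ∈ p.1 ∧ ((0, 0) : Cell) ∉ p.2 then 1 else 0) := by
    rw [sum_PP, sum_filter]
    refine sum_le_sum fun S _ => ?_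
    by_cases h : ∃ k ≤ N, bad S k 0 0
    · rw [if_neg (not_not.2 h)]
      refine sum_nonneg fun X _ => ?_
      have : (0 : ℝ) ≤ lam ^ S.card := by positivity
      simp only
      split_ifs <;> simp [this]
    · rw [if_pos h]
      push Not at h
      refine le_of_eq ?_
      unfold w
      have : ∀ X ∈ col (BB N) S, lam ^ S.card *
          (if ((0, 0) : Cell) ∈ S ∧ ((0, 0) : Cell) ∉ X then (1 : ℝ) else 0) = lam ^ S.card := by
        intro X hX
        rw [mem_col] at hX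
        rw [if_pos (main_color hX.2 h), mul_one]
      rw [sum_congr rfl this, sum_const, nsmul_eq_mul, mul_comm]
  linarith

end Pool.Agent.H719R3.Perc
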