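import Mathlib

/-!
# Potential theory on finite connected vertex-transitive graphs

Green kernel, resistance metric, gap lemma and packing lemma.
-/

open Finset

set_option linter.unusedSectionVars false

namespace Pool.Agent.H719R3

variable {V : Type*} [Fintype V] [DecidableEq V] (G : SimpleGraph V) [DecidableRel G.Adj]

/-- combinatorial Laplacian -/
noncomputable def lap (f : V → ℝ) (x : V) : ℝ := ∑ y, if G.Adj x y then f x - f y else 0

/-- Dirichlet form -/
noncomputable def en (f h : V → ℝ) : ℝ :=
  (1 / 2) * ∑ x, ∑ y, if G.Adj x y then (f x - f y) * (h x - h y) else 0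

lemma en_comm (f h : V → ℝ) : en G f h = en G h f := by
  unfold en
  congr 1
  refine sum_congr rfl fun x _ => sum_congr rfl fun y _ => ?_
  split_ifs <;> ring

lemma sum_mul_lap (f h : V → ℝ) : ∑ x, f x * lap G h x = en G f h := by
  unfold en lap
  have h1 : ∑ x, f x * ∑ y, (if G.Adj x y then h x - h y else 0) =
      ∑ x, ∑ y, if G.Adj x y then f x * (h x - h y) else 0 := by
    refine sum_congr rfl fun x _ => ?_
    rw [mul_sum]
    refine sum_congr rfl fun y _ => ?_
    split_ifs <;> simp
  have h2 : ∑ x, ∑ y, (if G.Adj x y then f x * (h x - h y) else 0) =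
      ∑ x, ∑ y, if G.Adj x y then f y * (h y - h x) else 0 := by
    rw [sum_comm]
    refine sum_congr rfl fun x _ => sum_congr rfl fun y _ => ?_
    simp only [G.adj_comm x y]
  have h3 : ∑ x, ∑ y, (if G.Adj x y then (f x - f y) * (h x - h y) else 0) =
      (∑ x, ∑ y, if G.Adj x y then f x * (h x - h y) else 0) +
      ∑ x, ∑ y, if G.Adj x y then f y * (h y - h x) else 0 := by
    rw [← sum_add_distrib]
    refine sum_congr rfl fun x _ => ?_
    rw [← sum_add_distrib]
    refine sum_congr rfl fun y _ => ?_
    split_ifs <;> ring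
  rw [h1, h3, ← h2]
  ring

lemma en_self_nonneg (f : V → ℝ) : 0 ≤ en G f f := by
  unfold en
  have : 0 ≤ ∑ x, ∑ y, if G.Adj x y then (f x - f y) * (f x - f y) else 0 := by
    refine sum_nonneg fun x _ => sum_nonneg fun y _ => ?_
    split_ifs
    · exact mul_self_nonneg _
    · exact le_rfl
  linarith

lemma lap_sum (f : V → ℝ) : ∑ x, lap G f x = 0 := by
  have := sum_mul_lap G (fun _ => 1) f
  simp only [one_mul] at this
  rw [this]
  simp [en]

lemma lap_add (f h : V → ℝ) (x : V) : lap G (fun y => f y + h y) x = lap G f x + lap G h x := by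
  unfold lap
  rw [← sum_add_distrib]
  refine sum_congr rfl fun y _ => ?_
  split_ifs <;> ring

lemma lap_sub (f h : V → ℝ) (x : V) : lap G (fun y => f y - h y) x = lap G f x - lap G h x := by
  unfold lap
  rw [← sum_sub_distrib]
  refine sum_congr rfl fun y _ => ?_
  split_ifs <;> ring

lemma lap_smul (c : ℝ) (f : V → ℝ) (x : V) : lap G (fun y => c * f y) x = c * lap G f x := by
  unfold lap
  rw [mul_sum]
  refine sum_congr rfl fun y _ => ?_
  split_ifs <;> ring

lemma lap_const (c : ℝ) (x : V) : lap G (fun _ => c) x = 0 := by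
  unfold lap; simp

lemma lap_finset_sum {ι : Type*} (s : Finset ι) (F : ι → V → ℝ) (x : V) :
    lap G (fun y => ∑ i ∈ s, F i y) x = ∑ i ∈ s, lap G (F i) x := by
  classical
  induction s using Finset.induction_on with
  | empty => simp [lap_const]
  | insert a s ha ih =>
    simp only [sum_insert ha]
    rw [lap_add, ih]

/-- minimum principle -/
lemma min_principle (hG : G.Connected) (S : Set V) (hS : ∃ y, y ∉ S) (f : V → ℝ)
    (hsup : ∀ x ∈ S, 0 ≤ lap G f x) (hbd : ∀ x, x ∉ S → 0 ≤ f x) : ∀ x, 0 ≤ f x := by
  obtain ⟨y0, hy0⟩ := hS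
  obtain ⟨x0, -, hx0⟩ := exists_min_image univ f ⟨y0, mem_univ _⟩
  have hmin : ∀ x, f x0 ≤ f x := fun x => hx0 x (mem_univ _)
  by_contra hcon
  push Not at hcon
  obtain ⟨x1, hx1⟩ := hcon
  have hneg : f x0 < 0 := lt_of_le_of_lt (hmin x1) hx1
  have hstep : ∀ x y, G.Adj x y → f x = f x0 → f y = f x0 := by
    intro x y hxy hx
    have hxS : x ∈ S := by
      by_contra h
      have := hbd x h
      linarith
    have h1 := hsup x hxS
    unfold lap at h1
    have h2 : ∀ w ∈ (univ : Finset V), (if G.Adj x w then f x - f w else 0) ≤ 0 := by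
      intro w _
      split_ifs
      · have := hmin w; linarith
      · exact le_rfl
    have h3 : ∑ w, (if G.Adj x w then f x - f w else 0) = 0 :=
      le_antisymm (sum_nonpos h2) h1
    have h4 := (sum_eq_zero_iff_of_nonpos h2).1 h3 y (mem_univ _)
    rw [if_pos hxy] at h4
    linarith
  have hall : ∀ y, f y = f x0 := by
    intro y
    obtain ⟨p⟩ := hG.preconnected x0 y
    have : ∀ (a b : V) (p : G.Walk a b), f a = f x0 → f b = f x0 := by
      intro a b p
      induction p with
      | nil => exact id
      | cons hadj _ ih => intro ha; exact ih (hstep _ _ hadj ha)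
    exact this x0 y p rfl
  have := hbd y0 hy0
  rw [hall y0] at this
  linarith

/-- a function with zero energy is constant -/
lemma const_of_en_zero (hG : G.Connected) (f : V → ℝ) (h : en G f f = 0) (a b : V) :
    f a = f b := by
  have h1 : ∑ x, ∑ y, (if G.Adj x y then (f x - f y) * (f x - f y) else 0) = 0 := by
    unfold en at h; linarith
  have h2 : ∀ x y, G.Adj x y → f x = f y := by
    intro x y hxy
    have h3 := (sum_eq_zero_iff_of_nonneg (fun x _ => sum_nonneg fun y _ => by
      split_ifs
      · exact mul_self_nonneg _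
      · exact le_rfl)).1 h1 x (mem_univ _)
    have h4 := (sum_eq_zero_iff_of_nonneg (fun y _ => by
      split_ifs
      · exact mul_self_nonneg _
      · exact le_rfl)).1 h3 y (mem_univ _)
    rw [if_pos hxy] at h4
    have := mul_self_eq_zero.1 h4
    linarith
  obtain ⟨p⟩ := hG.preconnected a b
  induction p with
  | nil => rfl
  | cons hadj _ ih => exact (h2 _ _ hadj).trans ih

lemma const_of_lap_zero (hG : G.Connected) (f : V → ℝ) (h : ∀ x, lap G f x = 0) (a b : V) :
    f a = f b := by
  apply const_of_en_zero G hG f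
  rw [← sum_mul_lap]
  simp [h]

lemma eq_of_lap_eq (hG : G.Connected) {f h : V → ℝ} (hl : ∀ x, lap G f x = lap G h x)
    (hs : ∑ x, f x = ∑ x, h x) : f = h := by
  have h1 : ∀ x, lap G (fun y => f y - h y) x = 0 := by
    intro x; rw [lap_sub, hl]; ring
  have h2 := const_of_lap_zero G hG _ h1
  funext a
  have h3 : ∑ x, (f x - h x) = 0 := by rw [sum_sub_distrib, hs, sub_self]
  have h4 : ∑ x : V, (f x - h x) = (Fintype.card V : ℝ) * (f a - h a) := by
    rw [sum_congr rfl (fun x _ => h2 x a)]
    simp
    ring
  have hn : (Fintype.card V : ℝ) ≠ 0 := by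
    have : 0 < Fintype.card V := Fintype.card_pos_iff.2 ⟨a⟩
    positivity
  rw [h3] at h4
  have h5 : f a - h a = 0 := by
    rcases mul_eq_zero.1 h4.symm with h | h
    · exact absurd h hn
    · exact h
  linarith

/-- existence of the Green function -/
lemma exists_green (hG : G.Connected) (x : V) : ∃ g : V → ℝ,
    (∀ y, lap G g y = (if y = x then 1 else 0) - 1 / (Fintype.card V : ℝ)) ∧ ∑ y, g y = 0 := by
  have hn : (Fintype.card V : ℝ) ≠ 0 := by
    have : 0 < Fintype.card V := Fintype.card_pos_iff.2 ⟨x⟩
    positivity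
  let T : (V → ℝ) →ₗ[ℝ] (V → ℝ) :=
    { toFun := fun f y => lap G f y + ∑ w, f w
      map_add' := by
        intro f h
        funext y
        have : lap G (f + h) y = lap G f y + lap G h y := lap_add G f h y
        simp only [Pi.add_apply, this, sum_add_distrib]
        ring
      map_smul' := by
        intro c f
        funext y
        have : lap G (c • f) y = c * lap G f y := lap_smul G c f y
        simp only [this, Pi.smul_apply, smul_eq_mul, ← mul_sum, RingHom.id_apply]
        ring }
  have hinj : Function.Injective T := by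
    rw [← LinearMap.ker_eq_bot, LinearMap.ker_eq_bot']
    intro f hf
    have h1 : ∀ y, lap G f y + ∑ w, f w = 0 := fun y => congrFun hf y
    have h2 : ∑ y : V, (lap G f y + ∑ w, f w) = 0 := by simp [h1]
    rw [sum_add_distrib, lap_sum, zero_add] at h2
    have h3 : ∑ w, f w = 0 := by
      simp only [sum_const, card_univ, nsmul_eq_mul] at h2
      rcases mul_eq_zero.1 h2 with h | h
      · exact absurd h hn
      · exact h
    have h4 : ∀ y, lap G f y = 0 := by
      intro y; have := h1 y; rw [h3] at this; linarith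
    apply eq_of_lap_eq G hG (h := 0)
    · intro y
      rw [h4 y]
      exact (lap_const G 0 y).symm
    · simp [h3]
  have hsurj : Function.Surjective T := LinearMap.injective_iff_surjective.1 hinj
  obtain ⟨g, hg⟩ := hsurj (fun y => (if y = x then 1 else 0) - 1 / (Fintype.card V : ℝ))
  have h1 : ∀ y, lap G g y + ∑ w, g w = (if y = x then 1 else 0) - 1 / (Fintype.card V : ℝ) :=
    fun y => congrFun hg y
  have h2 : ∑ y : V, (lap G g y + ∑ w, g w) =
      ∑ y : V, ((if y = x then (1 : ℝ) else 0) - 1 / (Fintype.card V : ℝ)) :=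
    sum_congr rfl fun y _ => h1 y
  have h3 : ∑ w, g w = 0 := by
    rw [sum_add_distrib, lap_sum, zero_add, sum_sub_distrib] at h2
    simp only [sum_const, card_univ, nsmul_eq_mul, sum_ite_eq', mem_univ, if_true] at h2
    have h4 : (Fintype.card V : ℝ) * (1 / (Fintype.card V : ℝ)) = 1 := by field_simp
    rw [h4, sub_self] at h2
    rcases mul_eq_zero.1 h2 with h | h
    · exact absurd h hn
    · exact h
  refine ⟨g, fun y => ?_, h3⟩
  have := h1 y
  rw [h3, add_zero] at this
  exact this

/-- The Green kernel. -/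
noncomputable def gr (hG : G.Connected) (x : V) : V → ℝ := (exists_green G hG x).choose

lemma gr_lap (hG : G.Connected) (x y : V) :
    lap G (gr G hG x) y = (if y = x then 1 else 0) - 1 / (Fintype.card V : ℝ) :=
  (exists_green G hG x).choose_spec.1 y

lemma gr_sum (hG : G.Connected) (x : V) : ∑ y, gr G hG x y = 0 :=
  (exists_green G hG x).choose_spec.2

lemma sum_mul_gr_lap (hG : G.Connected) (f : V → ℝ) (x : V) :
    en G f (gr G hG x) = f x - (∑ y, f y) / (Fintype.card V : ℝ) := by
  rw [← sum_mul_lap]
  simp only [gr_lap, mul_sub, sum_sub_distrib, mul_ite, mul_one, mul_zero, sum_ite_eq',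
    mem_univ, if_true, ← sum_mul]
  ring

lemma gr_symm (hG : G.Connected) (x y : V) : gr G hG x y = gr G hG y x := by
  have h1 := sum_mul_gr_lap G hG (gr G hG x) y
  have h2 := sum_mul_gr_lap G hG (gr G hG y) x
  rw [gr_sum, zero_div, sub_zero] at h1 h2
  rw [← h1, ← h2, en_comm]

lemma gr_aut (hG : G.Connected) (φ : G ≃g G) (x y : V) :
    gr G hG (φ x) (φ y) = gr G hG x y := by
  have h : (fun y => gr G hG (φ x) (φ y)) = gr G hG x := by
    apply eq_of_lap_eq G hG
    · intro y
      have h1 : lap G (fun y => gr G hG (φ x) (φ y)) y = lap G (gr G hG (φ x)) (φ y) := by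
        unfold lap
        rw [← Equiv.sum_comp φ.toEquiv
          (fun w => if G.Adj (φ y) w then gr G hG (φ x) (φ y) - gr G hG (φ x) w else 0)]
        refine sum_congr rfl fun w _ => ?_
        have : G.Adj (φ y) (φ w) ↔ G.Adj y w := φ.map_adj_iff
        simp only [RelIso.coe_fn_toEquiv, this]
      rw [h1, gr_lap, gr_lap]
      simp
    · exact (Equiv.sum_comp φ.toEquiv (fun w => gr G hG (φ x) w)).trans
        ((gr_sum G hG (φ x)).trans (gr_sum G hG x).symm)
  exact congrFun h y

/-- vertex-transitivity -/
def Trans : Prop := ∀ x y : V, ∃ φ : G ≃g G, φ x = y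

lemma gr_diag (hG : G.Connected) (hT : Trans G) (x y : V) : gr G hG x x = gr G hG y y := by
  obtain ⟨φ, hφ⟩ := hT x y
  rw [← hφ, gr_aut]

/-- resistance-type metric -/
noncomputable def ps (hG : G.Connected) (x y : V) : ℝ := gr G hG x x - gr G hG x y

lemma ps_self (hG : G.Connected) (x : V) : ps G hG x x = 0 := by simp [ps]

lemma ps_aut (hG : G.Connected) (φ : G ≃g G) (x y : V) :
    ps G hG (φ x) (φ y) = ps G hG x y := by
  simp [ps, gr_aut]

lemma ps_symm (hG : G.Connected) (hT : Trans G) (x y : V) : ps G hG x y = ps G hG y x := by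
  unfold ps
  rw [gr_diag G hG hT x y, gr_symm G hG x y]

lemma ps_tri (hG : G.Connected) (hT : Trans G) (x y z : V) :
    ps G hG x z ≤ ps G hG x y + ps G hG y z := by
  -- h = g_x - g_y is minimal at y
  have h := min_principle G hG {v | v ≠ y} ⟨y, by simp⟩
    (fun v => (gr G hG x v - gr G hG y v) - (gr G hG x y - gr G hG y y)) ?_ ?_ z
  · unfold ps
    have := gr_diag G hG hT x y
    linarith
  · intro v hv
    have hv' : v ≠ y := hv
    rw [lap_sub, lap_const, lap_sub, gr_lap, gr_lap, if_neg hv']
    split_ifs <;> simp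
  · intro v hv
    have : v = y := by simpa using hv
    subst this
    simp

lemma ps_nonneg (hG : G.Connected) (hT : Trans G) (x y : V) : 0 ≤ ps G hG x y := by
  have h := ps_tri G hG hT x y x
  rw [ps_self, ps_symm G hG hT y x] at h
  linarith

lemma ps_lap (hG : G.Connected) (x y : V) :
    lap G (ps G hG x) y = 1 / (Fintype.card V : ℝ) - (if y = x then 1 else 0) := by
  have : lap G (ps G hG x) y = lap G (fun w => gr G hG x x - gr G hG x w) y := rfl
  rw [this, lap_sub, lap_const, gr_lap]
  ring

lemma ps_sum (hG : G.Connected) (x : V) :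
    ∑ y, ps G hG x y = (Fintype.card V : ℝ) * gr G hG x x := by
  unfold ps
  rw [sum_sub_distrib, gr_sum]
  simp

lemma ps_pos (hG : G.Connected) (hT : Trans G) {x y : V} (hxy : x ≠ y) : 0 < ps G hG x y := by
  -- 2 ps = en h h for h = g_x - g_y
  set h : V → ℝ := fun v => gr G hG x v - gr G hG y v with hh
  have hlap : ∀ v, lap G h v = (if v = x then 1 else 0) - (if v = y then 1 else 0) := by
    intro v
    rw [hh, lap_sub, gr_lap, gr_lap]; ring
  have h1 : en G h h = 2 * ps G hG x y := by
    rw [← sum_mul_lap]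
    simp only [hlap, mul_sub, sum_sub_distrib, mul_ite, mul_one, mul_zero, sum_ite_eq',
      mem_univ, if_true]
    simp only [hh, ps]
    rw [gr_diag G hG hT y x, gr_symm G hG y x]
    ring
  rcases (en_self_nonneg G h).lt_or_eq with h2 | h2
  · linarith
  · exfalso
    have h3 := const_of_en_zero G hG h h2.symm
    have h4 : lap G h x = 0 := by
      unfold lap
      apply sum_eq_zero
      intro w _
      rw [h3 x w]; simp
    rw [hlap, if_pos rfl, if_neg hxy] at h4
    norm_num at h4

end Pool.Agent.H719R3
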