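import Pool.Agent.H719R3.Pot

/-!
# Gap lemma and packing lemma
-/

open Finset

set_option linter.unusedSectionVars false

namespace Pool.Agent.H719R3

variable {V : Type*} [Fintype V] [DecidableEq V] (G : SimpleGraph V) [DecidableRel G.Adj]

/-- flux out of a closed ball -/
lemma flux (hG : G.Connected) (x : V) (C : Finset V) :
    ∑ v ∈ C, ∑ w ∈ Cᶜ, (if G.Adj v w then ps G hG x w - ps G hG x v else 0) =
      (if x ∈ C then 1 else 0) - (C.card : ℝ) / (Fintype.card V : ℝ) := by
  have h1 : ∑ v ∈ C, lap G (ps G hG x) v =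
      (C.card : ℝ) / (Fintype.card V : ℝ) - (if x ∈ C then 1 else 0) := by
    simp only [ps_lap, sum_sub_distrib, sum_const, nsmul_eq_mul, sum_ite_eq']
    ring
  have h2 : ∑ v ∈ C, lap G (ps G hG x) v =
      ∑ v ∈ C, ∑ w ∈ C, (if G.Adj v w then ps G hG x v - ps G hG x w else 0) +
      ∑ v ∈ C, ∑ w ∈ Cᶜ, (if G.Adj v w then ps G hG x v - ps G hG x w else 0) := by
    rw [← sum_add_distrib]
    refine sum_congr rfl fun v _ => ?_
    unfold lap
    rw [sum_add_sum_compl]
  have h3 : ∑ v ∈ C, ∑ w ∈ C, (if G.Adj v w then ps G hG x v - ps G hG x w else 0) = 0 := by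
    have h4 : ∑ v ∈ C, ∑ w ∈ C, (if G.Adj v w then ps G hG x v - ps G hG x w else 0) =
        ∑ v ∈ C, ∑ w ∈ C, (if G.Adj v w then ps G hG x w - ps G hG x v else 0) := by
      rw [sum_comm]
      refine sum_congr rfl fun v _ => sum_congr rfl fun w _ => ?_
      simp only [G.adj_comm v w]
    have h5 : ∑ v ∈ C, ∑ w ∈ C, (if G.Adj v w then ps G hG x w - ps G hG x v else 0) =
        - ∑ v ∈ C, ∑ w ∈ C, (if G.Adj v w then ps G hG x v - ps G hG x w else 0) := by
      rw [← sum_neg_distrib]
      refine sum_congr rfl fun v _ => ?_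
      rw [← sum_neg_distrib]
      refine sum_congr rfl fun w _ => ?_
      split_ifs <;> ring
    linarith
  have h6 : ∑ v ∈ C, ∑ w ∈ Cᶜ, (if G.Adj v w then ps G hG x w - ps G hG x v else 0) =
      - ∑ v ∈ C, ∑ w ∈ Cᶜ, (if G.Adj v w then ps G hG x v - ps G hG x w else 0) := by
    rw [← sum_neg_distrib]
    refine sum_congr rfl fun v _ => ?_
    rw [← sum_neg_distrib]
    refine sum_congr rfl fun w _ => ?_
    split_ifs <;> ring
  rw [h6]
  rw [h2, h3, zero_add] at h1
  linarith

/-- closed ball -/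
noncomputable def cb (hG : G.Connected) (x : V) (r : ℝ) : Finset V :=
  univ.filter fun y => ps G hG x y ≤ r

/-- open ball -/
noncomputable def ob (hG : G.Connected) (x : V) (r : ℝ) : Finset V :=
  univ.filter fun y => ps G hG x y < r

lemma nbr_sum (hG : G.Connected) (x : V) :
    ∑ w ∈ G.neighborFinset x, ps G hG x w = 1 - 1 / (Fintype.card V : ℝ) := by
  have h1 := ps_lap G hG x x
  rw [if_pos rfl] at h1
  unfold lap at h1
  rw [ps_self] at h1
  have h2 : ∑ w ∈ G.neighborFinset x, ps G hG x w =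
      ∑ w, if G.Adj x w then ps G hG x w else 0 := by
    rw [← sum_filter]
    congr 1
    ext w
    simp
  rw [h2]
  have h3 : ∑ w, (if G.Adj x w then ps G hG x w else 0) =
      - ∑ w, (if G.Adj x w then 0 - ps G hG x w else 0) := by
    rw [← sum_neg_distrib]
    refine sum_congr rfl fun w _ => ?_
    split_ifs <;> ring
  rw [h3, h1]
  ring

lemma cb_card (hG : G.Connected) (hT : Trans G) (x : V) {r : ℝ} (hr : 0 < r) :
    ((G.degree x : ℝ) + 1) * r - 1 ≤ ((cb G hG x r).card : ℝ) * r := by
  classical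
  -- neighbours with ps > r
  set B := (G.neighborFinset x).filter (fun w => ¬ ps G hG x w ≤ r) with hB
  set A := (G.neighborFinset x).filter (fun w => ps G hG x w ≤ r) with hA
  have hn : (0 : ℝ) < Fintype.card V := by
    have : 0 < Fintype.card V := Fintype.card_pos_iff.2 ⟨x⟩
    positivity
  have h1 : (B.card : ℝ) * r ≤ 1 := by
    have h2 : (B.card : ℝ) * r ≤ ∑ w ∈ B, ps G hG x w := by
      rw [← nsmul_eq_mul]
      apply card_nsmul_le_sum
      intro w hw
      rw [hB, mem_filter] at hw
      push Not at hw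
      exact hw.2.le
    have h3 : ∑ w ∈ B, ps G hG x w ≤ ∑ w ∈ G.neighborFinset x, ps G hG x w := by
      apply sum_le_sum_of_subset_of_nonneg
      · rw [hB]; exact filter_subset _ _
      · intro w _ _; exact ps_nonneg G hG hT x w
    rw [nbr_sum] at h3
    have : 0 < 1 / (Fintype.card V : ℝ) := by positivity
    linarith
  have h4 : A.card + B.card = G.degree x := by
    rw [hA, hB, card_filter_add_card_filter_not, G.card_neighborFinset_eq_degree]
  have h5 : A.card + 1 ≤ (cb G hG x r).card := by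
    have : insert x A ⊆ cb G hG x r := by
      intro w hw
      rw [mem_insert] at hw
      unfold cb
      rw [mem_filter]
      refine ⟨mem_univ _, ?_⟩
      rcases hw with rfl | hw
      · rw [ps_self]; exact hr.le
      · rw [hA, mem_filter] at hw; exact hw.2
    have hx : x ∉ A := by
      rw [hA, mem_filter]; simp
    have h6 := card_le_card this
    rwa [card_insert_of_notMem hx] at h6
  have h5' : (A.card : ℝ) + 1 ≤ (cb G hG x r).card := by exact_mod_cast h5
  have h4' : (A.card : ℝ) + B.card = G.degree x := by exact_mod_cast h4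
  nlinarith

/-- gap lemma -/
lemma gap (hG : G.Connected) (hT : Trans G) {r : ℝ} (hr : 0 < r) (x0 : V)
    (hr2 : 2 ≤ ((G.degree x0 : ℝ) + 1) * r) {a b : V} (hab : r < ps G hG a b) (x : V) :
    ∃ y, r < ps G hG x y ∧ ps G hG x y ≤ 2 * r := by
  classical
  by_contra hcon
  push Not at hcon
  -- no pair in (r, 2r]
  have hno : ∀ u v, ps G hG u v ≤ 2 * r → ps G hG u v ≤ r := by
    intro u v h
    by_contra h2
    push Not at h2
    obtain ⟨φ, hφ⟩ := hT u x
    have h3 : ps G hG x (φ v) = ps G hG u v := by rw [← hφ, ps_aut]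
    have h4 := hcon (φ v) (by rw [h3]; exact h2)
    rw [h3] at h4
    linarith
  -- there is an adjacent pair at distance > r
  have hadj : ∃ a' b', G.Adj a' b' ∧ r < ps G hG a' b' := by
    by_contra h
    push Not at h
    have hall : ∀ (u v : V) (p : G.Walk u v), ps G hG u v ≤ r := by
      intro u v p
      induction p with
      | nil => rw [ps_self]; exact hr.le
      | @cons u' v' w' h1 _ ih =>
        apply hno
        have h2 := h _ _ h1
        have h3 := ps_tri G hG hT u' v' w'
        linarith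
    obtain ⟨p⟩ := hG.preconnected a b
    have := hall a b p
    linarith
  obtain ⟨a', b', hadj, hab'⟩ := hadj
  have hnb : ∀ v : V, ∃ w, G.Adj v w ∧ r < ps G hG v w := by
    intro v
    obtain ⟨φ, hφ⟩ := hT a' v
    refine ⟨φ b', ?_, ?_⟩
    · rw [← hφ]; exact φ.map_adj_iff.2 hadj
    · rw [← hφ, ps_aut]; exact hab'
  set C := cb G hG x0 r with hC
  have hx0 : x0 ∈ C := by
    rw [hC]; unfold cb; rw [mem_filter]; exact ⟨mem_univ _, by rw [ps_self]; exact hr.le⟩
  have hCpos : (0 : ℝ) < C.card := by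
    have : 0 < C.card := card_pos.2 ⟨x0, hx0⟩
    exact_mod_cast this
  have hn : (0 : ℝ) < Fintype.card V := by
    have : 0 < Fintype.card V := Fintype.card_pos_iff.2 ⟨x⟩
    positivity
  have hfl := flux G hG x0 C
  rw [if_pos hx0] at hfl
  have hlow : (C.card : ℝ) * r ≤
      ∑ v ∈ C, ∑ w ∈ Cᶜ, (if G.Adj v w then ps G hG x0 w - ps G hG x0 v else 0) := by
    rw [← nsmul_eq_mul]
    apply card_nsmul_le_sum
    intro v hv
    have hvr : ps G hG x0 v ≤ r := by
      rw [hC] at hv; unfold cb at hv; exact (mem_filter.1 hv).2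
    obtain ⟨w, hvw, hw⟩ := hnb v
    have hout : ∀ u, u ∈ Cᶜ → 2 * r < ps G hG x0 u := by
      intro u hu
      by_contra h
      push Not at h
      have h2 := hno _ _ h
      rw [mem_compl] at hu
      apply hu
      rw [hC]; unfold cb; rw [mem_filter]; exact ⟨mem_univ _, h2⟩
    have hwC : w ∈ Cᶜ := by
      rw [mem_compl]
      intro hwc
      have h1 : ps G hG x0 w ≤ r := by
        rw [hC] at hwc; unfold cb at hwc; exact (mem_filter.1 hwc).2
      have h2 := ps_tri G hG hT v x0 w
      rw [ps_symm G hG hT v x0] at h2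
      have h3 := hno v w (by linarith)
      linarith
    have hterm : ∀ u ∈ Cᶜ, 0 ≤ (if G.Adj v u then ps G hG x0 u - ps G hG x0 v else 0) := by
      intro u hu
      split_ifs
      · have := hout u hu; linarith
      · exact le_rfl
    refine le_trans ?_ (single_le_sum hterm hwC)
    rw [if_pos hvw]
    have := hout w hwC
    linarith
  have hcard := cb_card G hG hT x0 hr
  rw [← hC] at hcard
  have : 0 < (C.card : ℝ) / (Fintype.card V : ℝ) := by positivity
  linarith

lemma ob_card_aut (hG : G.Connected) (hT : Trans G) (x y : V) (r : ℝ) :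
    (ob G hG x r).card = (ob G hG y r).card := by
  classical
  obtain ⟨φ, hφ⟩ := hT x y
  unfold ob
  apply card_bij (fun v _ => φ v)
  · intro v hv
    rw [mem_filter] at hv ⊢
    refine ⟨mem_univ _, ?_⟩
    rw [← hφ, ps_aut]; exact hv.2
  · intro v _ w _ h
    exact φ.injective h
  · intro w hw
    refine ⟨φ.symm w, ?_, by simp⟩
    rw [mem_filter] at hw ⊢
    refine ⟨mem_univ _, ?_⟩
    have h2 := hw.2
    rw [← hφ] at h2
    have h3 : w = φ (φ.symm w) := by simp
    rw [h3, ps_aut] at h2
    exact h2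

/-- packing lemma -/
lemma packing (hG : G.Connected) (hT : Trans G) {r : ℝ} (hr : 0 < r) (x0 : V)
    (hr2 : 2 ≤ ((G.degree x0 : ℝ) + 1) * r) (K : ℕ)
    (hK : Fintype.card V < (K + 1) * (ob G hG x0 r).card) (a b : V) :
    ps G hG a b ≤ 4 ^ K * r := by
  classical
  by_contra hcon
  push Not at hcon
  have hy : ∀ j : ℕ, ∃ y, j ≤ K → (4 ^ j * r < ps G hG x0 y ∧ ps G hG x0 y ≤ 2 * (4 ^ j * r)) := by
    intro j
    by_cases hj : j ≤ K
    · have h4 : (1 : ℝ) ≤ 4 ^ j := one_le_pow₀ (by norm_num)
      have hjr : 0 < (4 : ℝ) ^ j * r := by positivity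
      have hle : (4 : ℝ) ^ j * r ≤ 4 ^ K * r := by
        apply mul_le_mul_of_nonneg_right _ hr.le
        exact pow_le_pow_right₀ (by norm_num) hj
      obtain ⟨y, h1, h2⟩ := gap G hG hT hjr x0 (by
        have : (0 : ℝ) ≤ (G.degree x0 : ℝ) + 1 := by positivity
        nlinarith [mul_nonneg this hr.le]) (lt_of_le_of_lt hle hcon) x0
      exact ⟨y, fun _ => ⟨h1, h2⟩⟩
    · exact ⟨x0, fun h => absurd h hj⟩
  choose y hy using hy
  -- centres: c 0 = x0, c j = y j
  let c : ℕ → V := fun j => if j = 0 then x0 else y j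
  have hc0 : ∀ j, j ≤ K → ps G hG x0 (c j) ≤ 2 * (4 ^ j * r) := by
    intro j hj
    by_cases h : j = 0
    · simp only [c, h, if_true, ps_self]; positivity
    · simp only [c, h, if_false]; exact (hy j hj).2
  have hc1 : ∀ j, 1 ≤ j → j ≤ K → 4 ^ j * r < ps G hG x0 (c j) := by
    intro j hj1 hj
    have h : j ≠ 0 := by omega
    simp only [c, h, if_false]; exact (hy j hj).1
  have hc2 : ∀ i j, i < j → j ≤ K → 2 * r ≤ ps G hG (c i) (c j) := by
    intro i j hij hj
    have h1 := hc1 j (by omega) hj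
    have h3 := ps_tri G hG hT x0 (c i) (c j)
    by_cases hi : i = 0
    · have hci : c i = x0 := by simp [c, hi]
      rw [hci, ps_self, zero_add] at h3
      rw [hci]
      have h4 : (4 : ℝ) ^ 1 ≤ 4 ^ j := pow_le_pow_right₀ (by norm_num) (by omega)
      have : (4 : ℝ) ^ 1 * r ≤ 4 ^ j * r := mul_le_mul_of_nonneg_right h4 hr.le
      linarith
    · have h2 := hc0 i (by omega)
      have h4 : (4 : ℝ) ^ (i + 1) ≤ 4 ^ j := pow_le_pow_right₀ (by norm_num) (by omega)
      have h5 : (4 : ℝ) ^ (i + 1) * r ≤ 4 ^ j * r := mul_le_mul_of_nonneg_right h4 hr.le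
      have h6 : (4 : ℝ) ^ 1 ≤ 4 ^ i := pow_le_pow_right₀ (by norm_num) (by omega)
      have h7 : (4 : ℝ) ^ 1 * r ≤ 4 ^ i * r := mul_le_mul_of_nonneg_right h6 hr.le
      rw [pow_succ] at h5
      linarith
  have hdisj : ∀ i ∈ range (K + 1), ∀ j ∈ range (K + 1), i ≠ j →
      Disjoint (ob G hG (c i) r) (ob G hG (c j) r) := by
    intro i hi j hj hij
    rw [mem_range] at hi hj
    rw [Finset.disjoint_left]
    intro v hv hv2
    have h1 : ps G hG (c i) v < r := by unfold ob at hv; exact (mem_filter.1 hv).2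
    have h2 : ps G hG (c j) v < r := by unfold ob at hv2; exact (mem_filter.1 hv2).2
    have h3 := ps_tri G hG hT (c i) v (c j)
    rw [ps_symm G hG hT v (c j)] at h3
    rcases lt_or_gt_of_ne hij with h | h
    · have := hc2 i j h (by omega); linarith
    · have := hc2 j i h (by omega)
      rw [ps_symm G hG hT (c j) (c i)] at this
      linarith
  have hcard : (Finset.biUnion (range (K + 1)) (fun j => ob G hG (c j) r)).card =
      (K + 1) * (ob G hG x0 r).card := by
    rw [card_biUnion hdisj]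
    rw [sum_congr rfl (fun j _ => ob_card_aut G hG hT (c j) x0 r)]
    simp
  have hle := card_le_univ (Finset.biUnion (range (K + 1)) (fun j => ob G hG (c j) r))
  rw [hcard] at hle
  omega

end Pool.Agent.H719R3
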