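import Pool.Agent.H719R3.Pot2

/-!
# Energy of IDLA configurations
-/

open Finset

set_option linter.unusedSectionVars false

namespace Pool.Agent.H719R3

variable {V : Type*} [Fintype V] [DecidableEq V] (G : SimpleGraph V) [DecidableRel G.Adj]

/-- Cauchy–Schwarz for the Dirichlet form -/
lemma en_cs (f h : V → ℝ) : en G f h ^ 2 ≤ en G f f * en G h h := by
  unfold en
  have key := sum_mul_sq_le_sq_mul_sq (univ : Finset (V × V))
    (fun p => if G.Adj p.1 p.2 then f p.1 - f p.2 else 0)
    (fun p => if G.Adj p.1 p.2 then h p.1 - h p.2 else 0)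
  have e1 : ∑ x, ∑ y, (if G.Adj x y then (f x - f y) * (h x - h y) else 0) =
      ∑ p : V × V, (if G.Adj p.1 p.2 then f p.1 - f p.2 else 0) *
        (if G.Adj p.1 p.2 then h p.1 - h p.2 else 0) := by
    rw [Fintype.sum_prod_type]
    refine sum_congr rfl fun x _ => sum_congr rfl fun y _ => ?_
    split_ifs <;> simp
  have e2 : ∀ k : V → ℝ, ∑ x, ∑ y, (if G.Adj x y then (k x - k y) * (k x - k y) else 0) =
      ∑ p : V × V, (if G.Adj p.1 p.2 then k p.1 - k p.2 else 0) ^ 2 := by
    intro k
    rw [Fintype.sum_prod_type]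
    refine sum_congr rfl fun x _ => sum_congr rfl fun y _ => ?_
    split_ifs
    · simp only; ring
    · simp
  rw [e1, e2 f, e2 h]
  nlinarith [key]

/-- potential of a configuration -/
noncomputable def Phi (hG : G.Connected) (z : V) (σ : Finset V) (l : ℕ) (y : V) : ℝ :=
  ∑ x ∈ σ, gr G hG x y + (l : ℝ) * gr G hG z y

/-- energy of a configuration -/
noncomputable def En (hG : G.Connected) (z : V) (σ : Finset V) (l : ℕ) : ℝ :=
  ∑ x ∈ σ, Phi G hG z σ l x + (l : ℝ) * Phi G hG z σ l z

lemma Phi_sum (hG : G.Connected) (z : V) (σ : Finset V) (l : ℕ) :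
    ∑ y, Phi G hG z σ l y = 0 := by
  unfold Phi
  rw [sum_add_distrib, sum_comm, ← mul_sum, gr_sum]
  simp [gr_sum]

lemma Phi_lap (hG : G.Connected) (z : V) (σ : Finset V) (l : ℕ) (y : V) :
    lap G (Phi G hG z σ l) y = (if y ∈ σ then 1 else 0) + (l : ℝ) * (if y = z then 1 else 0) -
      ((σ.card : ℝ) + l) / (Fintype.card V : ℝ) := by
  have : lap G (Phi G hG z σ l) y =
      lap G (fun y => (∑ x ∈ σ, gr G hG x y) + (l : ℝ) * gr G hG z y) y := rfl
  rw [this, lap_add, lap_finset_sum, lap_smul]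
  have h1 : ∀ x : V, lap G (fun y => gr G hG x y) y =
      (if y = x then 1 else 0) - 1 / (Fintype.card V : ℝ) := fun x => gr_lap G hG x y
  rw [sum_congr rfl (fun x _ => h1 x), h1 z, sum_sub_distrib]
  simp only [sum_ite_eq, sum_const, nsmul_eq_mul]
  ring

lemma en_Phi (hG : G.Connected) (z : V) (σ : Finset V) (l : ℕ) (f : V → ℝ) :
    en G f (Phi G hG z σ l) = ∑ x ∈ σ, f x + (l : ℝ) * f z -
      ((σ.card : ℝ) + l) / (Fintype.card V : ℝ) * ∑ x, f x := by
  rw [← sum_mul_lap]
  simp only [Phi_lap, mul_sub, mul_add, sum_sub_distrib, sum_add_distrib]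
  have h1 : ∑ x, f x * (if x ∈ σ then (1 : ℝ) else 0) = ∑ x ∈ σ, f x := by
    simp only [mul_ite, mul_one, mul_zero]
    rw [← sum_filter]; congr 1; ext x; simp
  have h2 : ∑ x, f x * ((l : ℝ) * (if x = z then 1 else 0)) = (l : ℝ) * f z := by
    simp only [mul_ite, mul_one, mul_zero, sum_ite_eq', mem_univ, if_true]
    ring
  rw [h1, h2, ← sum_mul]
  ring

lemma En_eq (hG : G.Connected) (z : V) (σ : Finset V) (l : ℕ) :
    En G hG z σ l = en G (Phi G hG z σ l) (Phi G hG z σ l) := by
  rw [en_Phi, Phi_sum]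
  unfold En
  ring

lemma En_nonneg (hG : G.Connected) (z : V) (σ : Finset V) (l : ℕ) : 0 ≤ En G hG z σ l := by
  rw [En_eq]; exact en_self_nonneg G _

/-- lower bound of the energy through test functions -/
lemma En_lower (hG : G.Connected) (z : V) (σ : Finset V) (l : ℕ)
    (ht : σ.card + l ≤ Fintype.card V) (f : V → ℝ) (hf : ∀ x, 0 ≤ f x) (hfz : f z = 1)
    (hl : ∑ x, f x ≤ l) :
    ((l : ℝ) - ∑ x, f x) ^ 2 ≤ en G f f * En G hG z σ l := by
  have h1 := en_cs G f (Phi G hG z σ l)
  rw [← En_eq] at h1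
  have hn : (0 : ℝ) < Fintype.card V := by
    have : 0 < Fintype.card V := Fintype.card_pos_iff.2 ⟨z⟩
    positivity
  have h2 : (l : ℝ) - ∑ x, f x ≤ en G f (Phi G hG z σ l) := by
    rw [en_Phi, hfz]
    have h3 : 0 ≤ ∑ x ∈ σ, f x := sum_nonneg fun x _ => hf x
    have h4 : ((σ.card : ℝ) + l) / (Fintype.card V : ℝ) ≤ 1 := by
      rw [div_le_one hn]; exact_mod_cast ht
    have h5 : 0 ≤ ∑ x, f x := sum_nonneg fun x _ => hf x
    nlinarith
  have h6 : 0 ≤ (l : ℝ) - ∑ x, f x := by linarith
  nlinarith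

lemma En_insert (hG : G.Connected) (hT : Trans G) (z : V) (σ : Finset V) (l : ℕ) (v : V)
    (hv : v ∉ σ) :
    En G hG z (insert v σ) l = En G hG z σ l + 2 * Phi G hG z σ l v + gr G hG z z := by
  have h1 : ∀ y, Phi G hG z (insert v σ) l y = Phi G hG z σ l y + gr G hG v y := by
    intro y; unfold Phi; rw [sum_insert hv]; ring
  unfold En
  rw [sum_insert hv]
  simp only [h1, sum_add_distrib]
  have h2 : ∑ x ∈ σ, gr G hG v x = ∑ x ∈ σ, gr G hG x v :=
    sum_congr rfl fun x _ => gr_symm G hG v x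
  rw [h2, gr_diag G hG hT v z, gr_symm G hG v z]
  have h3 : Phi G hG z σ l v = ∑ x ∈ σ, gr G hG x v + (l : ℝ) * gr G hG z v := rfl
  rw [h3]
  ring

lemma En_succ (hG : G.Connected) (z : V) (σ : Finset V) (l : ℕ) :
    En G hG z σ (l + 1) = En G hG z σ l + 2 * Phi G hG z σ l z + gr G hG z z := by
  have h1 : ∀ y, Phi G hG z σ (l + 1) y = Phi G hG z σ l y + gr G hG z y := by
    intro y; unfold Phi; push_cast; ring
  unfold En
  simp only [h1, sum_add_distrib]
  have h2 : ∑ x ∈ σ, gr G hG z x = ∑ x ∈ σ, gr G hG x z :=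
    sum_congr rfl fun x _ => gr_symm G hG z x
  rw [h2]
  have h3 : Phi G hG z σ l z = ∑ x ∈ σ, gr G hG x z + (l : ℝ) * gr G hG z z := rfl
  rw [h3]
  push_cast
  ring

lemma En_empty (hG : G.Connected) (z : V) : En G hG z ∅ 0 = 0 := by
  simp [En, Phi]

/-- exit-distribution property: `p` is the law of the stopping place of the particle -/
structure ExitLaw (z : V) (σ : Finset V) (p : V → ℝ) : Prop where
  nonneg : ∀ v, 0 ≤ p v
  sum_one : ∑ v, p v = 1
  off : ∀ v ∈ σ, p v = 0
  super : ∀ F : V → ℝ, (∀ x ∈ σ, 0 ≤ lap G F x) →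
    ((Fintype.card V : ℝ) - 1) * ∑ v, p v * F v ≤ ∑ u ∈ univ.erase z, F u

/-- new state after stopping at `v` -/
def nx (z : V) (s : Finset V × ℕ) (v : V) : Finset V × ℕ :=
  if v = z then (s.1, s.2 + 1) else (insert v s.1, s.2)

lemma gr_diag_nonneg (hG : G.Connected) (x : V) : 0 ≤ gr G hG x x := by
  have h := sum_mul_gr_lap G hG (gr G hG x) x
  rw [gr_sum, zero_div, sub_zero] at h
  rw [← h]; exact en_self_nonneg G _

lemma step_energy (hG : G.Connected) (hT : Trans G) (z : V) (σ : Finset V) (l : ℕ)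
    (hz : z ∉ σ) (ht : σ.card + l ≤ Fintype.card V) (hn : 2 ≤ Fintype.card V)
    (p : V → ℝ) (hp : ExitLaw G z σ p) :
    ∑ v, p v * En G hG z (nx z (σ, l) v).1 (nx z (σ, l) v).2 ≤
      En G hG z σ l + 5 * gr G hG z z := by
  have h1 : ∀ v, p v * En G hG z (nx z (σ, l) v).1 (nx z (σ, l) v).2 =
      p v * (En G hG z σ l + gr G hG z z) + 2 * (p v * Phi G hG z σ l v) := by
    intro v
    by_cases hv : v ∈ σ
    · rw [hp.off v hv]; ring
    · by_cases hvz : v = z
      · subst hvz
        simp only [nx, if_true]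
        rw [En_succ]; ring
      · simp only [nx, if_neg hvz]
        rw [En_insert G hG hT z σ l v hv]; ring
  rw [sum_congr rfl (fun v _ => h1 v), sum_add_distrib, ← sum_mul, hp.sum_one, ← mul_sum]
  have hnR : (2 : ℝ) ≤ Fintype.card V := by exact_mod_cast hn
  have hnp : (0 : ℝ) < Fintype.card V := by linarith
  have h2 := hp.super (Phi G hG z σ l) (by
    intro x hx
    rw [Phi_lap, if_pos hx]
    have hxz : x ≠ z := fun h => hz (h ▸ hx)
    rw [if_neg hxz]
    have : ((σ.card : ℝ) + l) / (Fintype.card V : ℝ) ≤ 1 := by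
      rw [div_le_one hnp]; exact_mod_cast ht
    linarith)
  have h3 : ∑ u ∈ univ.erase z, Phi G hG z σ l u = - Phi G hG z σ l z := by
    have := add_sum_erase univ (Phi G hG z σ l) (mem_univ z)
    rw [Phi_sum] at this
    linarith
  have h4 : - Phi G hG z σ l z ≤ (Fintype.card V : ℝ) * gr G hG z z := by
    have h5 : ∑ x ∈ σ, gr G hG x z = (σ.card : ℝ) * gr G hG z z - ∑ x ∈ σ, ps G hG z x := by
      unfold ps
      rw [sum_sub_distrib, sum_const, nsmul_eq_mul]
      have : ∑ x ∈ σ, gr G hG z x = ∑ x ∈ σ, gr G hG x z :=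
        sum_congr rfl fun x _ => gr_symm G hG z x
      rw [this]; ring
    have h6 : ∑ x ∈ σ, ps G hG z x ≤ ∑ x, ps G hG z x :=
      sum_le_sum_of_subset_of_nonneg (subset_univ _) (fun x _ _ => ps_nonneg G hG hT z x)
    rw [ps_sum] at h6
    have h7 : Phi G hG z σ l z = ∑ x ∈ σ, gr G hG x z + (l : ℝ) * gr G hG z z := rfl
    have h8 := gr_diag_nonneg G hG z
    rw [h7, h5]
    have h9 : 0 ≤ ((σ.card : ℝ) + l) * gr G hG z z := by positivity
    nlinarith
  rw [h3] at h2
  have h10 : ∑ v, p v * Phi G hG z σ l v ≤ 2 * gr G hG z z := by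
    have h8 := gr_diag_nonneg G hG z
    have h11 : ((Fintype.card V : ℝ) - 1) * ∑ v, p v * Phi G hG z σ l v ≤
        ((Fintype.card V : ℝ) - 1) * (2 * gr G hG z z) := by
      refine h2.trans (h4.trans ?_)
      nlinarith
    exact le_of_mul_le_mul_left h11 (by linarith)
  linarith

lemma half (hG : G.Connected) (hT : Trans G) (z : V) (σ : Finset V)
    (hz : z ∉ σ) (k : V) (hk : k ∉ σ) (hkz : k ≠ z) (hn : 2 ≤ Fintype.card V)
    (p : V → ℝ) (hp : ExitLaw G z σ p) : p z ≤ 1 / 2 := by
  set F : V → ℝ := fun x => ps G hG k z - (gr G hG k x - gr G hG z x) with hF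
  have hFe : ∀ x, F x = ps G hG k z + ps G hG k x - ps G hG z x := by
    intro x; simp only [hF, ps]; rw [gr_diag G hG hT z k]; ring
  have hF0 : ∀ x, 0 ≤ F x := by
    intro x
    rw [hFe]
    have := ps_tri G hG hT z k x
    rw [ps_symm G hG hT z k] at this
    linarith
  have hlap : ∀ x ∈ σ, 0 ≤ lap G F x := by
    intro x hx
    have h1 : x ≠ z := fun h => hz (h ▸ hx)
    have h2 : x ≠ k := fun h => hk (h ▸ hx)
    rw [hF, lap_sub, lap_const, lap_sub, gr_lap, gr_lap, if_neg h1, if_neg h2]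
    simp
  have hnR : (2 : ℝ) ≤ Fintype.card V := by exact_mod_cast hn
  have h1 := hp.super F hlap
  have hFz : F z = 2 * ps G hG k z := by rw [hFe, ps_self]; ring
  have hFs : ∑ u, F u = (Fintype.card V : ℝ) * ps G hG k z := by
    simp only [hF, sum_sub_distrib, gr_sum]
    simp
  have h2 : ∑ u ∈ univ.erase z, F u = (Fintype.card V : ℝ) * ps G hG k z - 2 * ps G hG k z := by
    have := add_sum_erase univ F (mem_univ z)
    rw [hFs, hFz] at this
    linarith
  have h3 : p z * F z ≤ ∑ v, p v * F v :=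
    single_le_sum (f := fun v => p v * F v) (fun v _ => mul_nonneg (hp.nonneg v) (hF0 v))
      (mem_univ z)
  have hps := ps_pos G hG hT hkz
  rw [h2] at h1
  rw [hFz] at h3
  have h4 : ((Fintype.card V : ℝ) - 1) * (p z * (2 * ps G hG k z)) ≤
      ((Fintype.card V : ℝ) - 1) * ps G hG k z := by
    calc ((Fintype.card V : ℝ) - 1) * (p z * (2 * ps G hG k z)) ≤
        ((Fintype.card V : ℝ) - 1) * ∑ v, p v * F v := by
          apply mul_le_mul_of_nonneg_left h3; linarith
      _ ≤ (Fintype.card V : ℝ) * ps G hG k z - 2 * ps G hG k z := h1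
      _ ≤ _ := by nlinarith
  have h5 : p z * (2 * ps G hG k z) ≤ ps G hG k z :=
    le_of_mul_le_mul_left h4 (by linarith)
  have h6 : (2 * p z) * ps G hG k z ≤ 1 * ps G hG k z := by linarith
  have := le_of_mul_le_mul_right h6 hps
  linarith

lemma gr_diag_pos (hG : G.Connected) (hT : Trans G) (z : V) (hn : 2 ≤ Fintype.card V) :
    0 < gr G hG z z := by
  obtain ⟨k, hk⟩ : ∃ k, k ≠ z := by
    have : Nontrivial V := Fintype.one_lt_card_iff_nontrivial.1 (by omega)
    exact exists_ne z
  have h1 := ps_sum G hG z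
  have h2 : ps G hG z k ≤ ∑ y, ps G hG z y :=
    single_le_sum (fun y _ => ps_nonneg G hG hT z y) (mem_univ k)
  have h3 := ps_pos G hG hT hk.symm
  have hnR : (2 : ℝ) ≤ Fintype.card V := by exact_mod_cast hn
  rw [h1] at h2
  by_contra h
  push Not at h
  nlinarith

lemma gr_le_of_ps_le (hG : G.Connected) (z : V) {B : ℝ} (h : ∀ y, ps G hG z y ≤ B) :
    gr G hG z z ≤ B := by
  have h1 := ps_sum G hG z
  have h2 : ∑ y, ps G hG z y ≤ (Fintype.card V : ℝ) * B := by
    have := sum_le_card_nsmul univ (fun y => ps G hG z y) B (fun y _ => h y)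
    rwa [nsmul_eq_mul, card_univ] at this
  have hn : (0 : ℝ) < Fintype.card V := by
    have : 0 < Fintype.card V := Fintype.card_pos_iff.2 ⟨z⟩
    positivity
  rw [h1] at h2
  exact le_of_mul_le_mul_left h2 hn

/-- energy of the indicator of `z` -/
lemma en_delta (z : V) : en G (fun x => if x = z then 1 else 0) (fun x => if x = z then 1 else 0) =
    (G.degree z : ℝ) := by
  rw [← sum_mul_lap]
  simp only [ite_mul, one_mul, zero_mul, sum_ite_eq', mem_univ, if_true]
  unfold lap
  have : ∀ y, (if G.Adj z y then ((if z = z then (1 : ℝ) else 0) - if y = z then 1 else 0) else 0) =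
      if G.Adj z y then 1 else 0 := by
    intro y
    by_cases h : G.Adj z y
    · have : y ≠ z := h.ne'
      simp [h, this]
    · simp [h]
  rw [sum_congr rfl (fun y _ => this y), sum_boole, ← G.card_neighborFinset_eq_degree]
  congr 2
  ext y
  simp

/-- energy of the truncated potential -/
lemma en_trunc (hG : G.Connected) (hT : Trans G) (z : V) {r : ℝ} (hr : 0 < r) :
    en G (fun x => max 0 (1 - ps G hG z x / r)) (fun x => max 0 (1 - ps G hG z x / r)) ≤ 1 / r := by
  -- compare with -ps / r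
  set f : V → ℝ := fun x => max 0 (1 - ps G hG z x / r) with hf
  set h : V → ℝ := fun x => 1 - ps G hG z x / r with hh
  have h1 : en G f f ≤ en G f h := by
    unfold en
    have : ∑ x, ∑ y, (if G.Adj x y then (f x - f y) * (f x - f y) else 0) ≤
        ∑ x, ∑ y, (if G.Adj x y then (f x - f y) * (h x - h y) else 0) := by
      refine sum_le_sum fun x _ => sum_le_sum fun y _ => ?_
      split_ifs
      · have e1 : f x = max 0 (h x) := rfl
        have e2 : f y = max 0 (h y) := rfl
        rw [e1, e2]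
        rcases le_total 0 (h x) with hx | hx <;> rcases le_total 0 (h y) with hy | hy
        · rw [max_eq_right hx, max_eq_right hy]
        · rw [max_eq_right hx, max_eq_left hy]; nlinarith
        · rw [max_eq_left hx, max_eq_right hy]; nlinarith
        · rw [max_eq_left hx, max_eq_left hy]; simp
      · exact le_rfl
    linarith
  have h2 : ∀ x, lap G h x = -(1 / r) * (1 / (Fintype.card V : ℝ) - if x = z then 1 else 0) := by
    intro x
    have e : h = fun x => 1 - (1 / r) * ps G hG z x := by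
      funext x; simp only [hh]; ring
    rw [e, lap_sub, lap_const, lap_smul]
    have : lap G (fun y => ps G hG z y) x = lap G (ps G hG z) x := rfl
    rw [this, ps_lap]
    ring
  have h3 : en G f h = (1 / r) * (f z - (∑ x, f x) / (Fintype.card V : ℝ)) := by
    rw [← sum_mul_lap]
    have e : ∀ x, f x * lap G h x = (1 / r) * (if x = z then f x else 0) -
        (1 / r) * (1 / (Fintype.card V : ℝ)) * f x := by
      intro x; rw [h2]; split_ifs <;> ring
    rw [sum_congr rfl (fun x _ => e x), sum_sub_distrib, ← mul_sum, ← mul_sum]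
    simp only [sum_ite_eq', mem_univ, if_true]
    ring
  have h4 : f z = 1 := by simp [hf, ps_self]
  have h5 : 0 ≤ (∑ x, f x) / (Fintype.card V : ℝ) := by
    apply div_nonneg _ (Nat.cast_nonneg _)
    exact sum_nonneg fun x _ => le_max_left _ _
  rw [h3, h4] at h1
  have : 0 < 1 / r := by positivity
  nlinarith

/-- The deterministic energy bound: if many particles are lost the energy is large. -/
lemma lost_energy (hG : G.Connected) (hT : Trans G) (z : V) (hn : 2 ≤ Fintype.card V)
    (η : ℝ) (hη0 : 0 < η) (hη1 : η ≤ 1) (K : ℕ) (hK : 1 ≤ K * η)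
    (σ : Finset V) (l : ℕ) (ht : σ.card + l ≤ Fintype.card V) :
    (max 0 ((l : ℝ) - (1 + η * Fintype.card V))) ^ 2 * gr G hG z z ≤
      2 * 4 ^ K * En G hG z σ l := by
  classical
  have hnR : (2 : ℝ) ≤ Fintype.card V := by exact_mod_cast hn
  have hE := En_nonneg G hG z σ l
  have hg := gr_diag_nonneg G hG z
  have h4K : (0 : ℝ) < 4 ^ K := by positivity
  rcases le_total ((l : ℝ) - (1 + η * Fintype.card V)) 0 with hneg | hpos
  · rw [max_eq_left hneg]
    have : 0 ≤ 2 * 4 ^ K * En G hG z σ l := by positivity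
    simpa using this
  rw [max_eq_right hpos]
  set D : ℝ := (G.degree z : ℝ) with hD
  have hD0 : 0 ≤ D := Nat.cast_nonneg _
  set r1 : ℝ := 2 / (D + 1) with hr1
  have hr1p : 0 < r1 := by positivity
  -- minimal i with a large ball
  have hex : ∃ i : ℕ, η * Fintype.card V ≤ ((ob G hG z (2 ^ i * r1)).card : ℝ) := by
    obtain ⟨B, hB⟩ : ∃ B : ℝ, ∀ y, ps G hG z y ≤ B := by
      obtain ⟨y0, -, h⟩ := exists_max_image univ (ps G hG z) ⟨z, mem_univ z⟩
      exact ⟨_, fun y => h y (mem_univ y)⟩
    obtain ⟨i, hi⟩ := pow_unbounded_of_one_lt (B / r1) (by norm_num : (1 : ℝ) < 2)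
    refine ⟨i, ?_⟩
    have : ob G hG z (2 ^ i * r1) = univ := by
      unfold ob
      rw [filter_eq_self]
      intro y _
      rw [div_lt_iff₀ hr1p] at hi
      exact lt_of_le_of_lt (hB y) hi
    rw [this, card_univ]
    nlinarith
  have hpack : ∀ r : ℝ, r1 ≤ r → η * Fintype.card V ≤ ((ob G hG z r).card : ℝ) →
      gr G hG z z ≤ 4 ^ K * r := by
    intro r hr hcard
    apply gr_le_of_ps_le
    intro y
    apply packing G hG hT (lt_of_lt_of_le hr1p hr) z _ K _ z y
    · calc (2 : ℝ) = (D + 1) * r1 := by rw [hr1]; field_simp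
        _ ≤ (D + 1) * r := by apply mul_le_mul_of_nonneg_left hr; linarith
    · have h1 : ((Fintype.card V : ℝ)) < (K + 1) * ((ob G hG z r).card : ℝ) := by
        have : (Fintype.card V : ℝ) * 1 ≤ (Fintype.card V : ℝ) * (K * η) :=
          mul_le_mul_of_nonneg_left hK (by linarith)
        have h2 : (K : ℝ) * (η * Fintype.card V) ≤ K * ((ob G hG z r).card : ℝ) :=
          mul_le_mul_of_nonneg_left hcard (Nat.cast_nonneg _)
        have h3 : 0 < η * Fintype.card V := by positivity
        nlinarith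
      exact_mod_cast h1
  set i := Nat.find hex with hi
  have hi1 : η * Fintype.card V ≤ ((ob G hG z (2 ^ i * r1)).card : ℝ) := Nat.find_spec hex
  have hle_pow : ∀ j : ℕ, r1 ≤ 2 ^ j * r1 := by
    intro j
    have : (1 : ℝ) ≤ 2 ^ j := one_le_pow₀ (by norm_num)
    nlinarith
  rcases Nat.eq_zero_or_pos i with h0 | hipos
  · -- case i = 0
    rw [h0, pow_zero, one_mul] at hi1
    have hgle := hpack r1 le_rfl hi1
    have hfs : ∑ x, (if x = z then (1 : ℝ) else 0) = 1 := by simp
    have h1l : (1 : ℝ) ≤ l := by nlinarith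
    have h1 := En_lower G hG z σ l ht (fun x => if x = z then 1 else 0)
      (fun x => by split_ifs <;> norm_num) (by simp) (by rw [hfs]; exact h1l)
    rw [hfs, en_delta] at h1
    have h2 : ((l : ℝ) - (1 + η * Fintype.card V)) ^ 2 ≤ ((l : ℝ) - 1) ^ 2 := by
      have : 0 < η * Fintype.card V := by positivity
      apply pow_le_pow_left₀ hpos
      linarith
    calc ((l : ℝ) - (1 + η * Fintype.card V)) ^ 2 * gr G hG z z ≤
        (D * En G hG z σ l) * (4 ^ K * r1) := by
          apply mul_le_mul (h2.trans h1) hgle hg; positivity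
      _ = (4 ^ K * En G hG z σ l) * (D * r1) := by ring
      _ ≤ (4 ^ K * En G hG z σ l) * 2 := by
          apply mul_le_mul_of_nonneg_left _ (by positivity)
          rw [hr1, mul_div_assoc', div_le_iff₀ (by positivity)]
          linarith
      _ = 2 * 4 ^ K * En G hG z σ l := by ring
  · -- case i ≥ 1
    obtain ⟨j, hj⟩ : ∃ j, i = j + 1 := ⟨i - 1, by omega⟩
    have hlt : ¬ η * Fintype.card V ≤ ((ob G hG z (2 ^ j * r1)).card : ℝ) :=
      Nat.find_min hex (by omega)
    push Not at hlt
    set r : ℝ := 2 ^ j * r1 with hr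
    have hrp : 0 < r := by positivity
    have hgle := hpack (2 ^ i * r1) (hle_pow i) hi1
    have h2r : (2 : ℝ) ^ i * r1 = 2 * r := by rw [hj, pow_succ, hr]; ring
    rw [h2r] at hgle
    set f : V → ℝ := fun x => max 0 (1 - ps G hG z x / r) with hf
    have hfs : ∑ x, f x ≤ ((ob G hG z r).card : ℝ) := by
      have h1 : ∀ x, f x ≤ if ps G hG z x < r then 1 else 0 := by
        intro x
        simp only [hf]
        have hx := ps_nonneg G hG hT z x
        split_ifs with h
        · apply max_le zero_le_one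
          have : 0 ≤ ps G hG z x / r := by positivity
          linarith
        · push Not at h
          apply max_le le_rfl
          have : 1 ≤ ps G hG z x / r := by rwa [one_le_div hrp]
          linarith
      refine (sum_le_sum fun x _ => h1 x).trans ?_
      rw [sum_boole]
      unfold ob
      exact le_rfl
    have h1 := En_lower G hG z σ l ht f (fun x => le_max_left _ _)
      (by simp [hf, ps_self]) (by nlinarith)
    have h2 := en_trunc G hG hT z hrp
    rw [← hf] at h2
    have h3 : ((l : ℝ) - (1 + η * Fintype.card V)) ^ 2 ≤ ((l : ℝ) - ∑ x, f x) ^ 2 := by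
      apply pow_le_pow_left₀ hpos
      linarith
    have h4 : ((l : ℝ) - (1 + η * Fintype.card V)) ^ 2 ≤ (1 / r) * En G hG z σ l :=
      h3.trans (h1.trans (mul_le_mul_of_nonneg_right h2 hE))
    calc ((l : ℝ) - (1 + η * Fintype.card V)) ^ 2 * gr G hG z z ≤
        ((1 / r) * En G hG z σ l) * (4 ^ K * (2 * r)) := by
          apply mul_le_mul h4 hgle hg; positivity
      _ = 2 * 4 ^ K * En G hG z σ l := by field_simp

end Pool.Agent.H719R3
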