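import Pool.Agent.H719R3.Pot3

/-!
# The Markov chain of IDLA configurations: filling bound
-/

open Finset

set_option linter.unusedSectionVars false

namespace Pool.Agent.H719R3

variable {V : Type*} [Fintype V] [DecidableEq V] (G : SimpleGraph V) [DecidableRel G.Adj]

/-- iterated transition operator -/
noncomputable def Kit (p : Finset V → V → ℝ) (z : V) : ℕ → (Finset V × ℕ → ℝ) →
    (Finset V × ℕ) → ℝ
  | 0, h, s => h s
  | t + 1, h, s => ∑ v, p s.1 v * Kit p z t h (nx z s v)

variable {p : Finset V → V → ℝ} {z : V}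

lemma Kit_add (t m : ℕ) (h : Finset V × ℕ → ℝ) (s : Finset V × ℕ) :
    Kit p z (t + m) h s = Kit p z t (Kit p z m h) s := by
  induction t generalizing s with
  | zero => rw [Nat.zero_add]; rfl
  | succ t ih =>
    rw [Nat.succ_add]
    simp only [Kit, ih]

lemma nx_inv {z : V} {s : Finset V × ℕ} {v : V} (hz : z ∉ s.1) (hv : v ∉ s.1) :
    z ∉ (nx z s v).1 ∧ (nx z s v).1.card + (nx z s v).2 = s.1.card + s.2 + 1 := by
  by_cases hvz : v = z
  · simp only [nx, if_pos hvz]
    exact ⟨hz, by omega⟩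
  · simp only [nx, if_neg hvz]
    refine ⟨?_, ?_⟩
    · rw [mem_insert]; push Not; exact ⟨fun h => hvz h.symm, hz⟩
    · rw [card_insert_of_notMem hv]; omega

lemma Kit_mono (hp : ∀ σ, z ∉ σ → ExitLaw G z σ (p σ)) (t : ℕ) {h h' : Finset V × ℕ → ℝ}
    (s : Finset V × ℕ) (hz : z ∉ s.1)
    (hh : ∀ s' : Finset V × ℕ, z ∉ s'.1 → s'.1.card + s'.2 = s.1.card + s.2 + t → h s' ≤ h' s') :
    Kit p z t h s ≤ Kit p z t h' s := by
  induction t generalizing s with
  | zero => exact hh s hz (by omega)
  | succ t ih =>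
    simp only [Kit]
    refine sum_le_sum fun v _ => ?_
    by_cases hv : v ∈ s.1
    · rw [(hp s.1 hz).off v hv]; simp
    · obtain ⟨h1, h2⟩ := nx_inv hz hv
      apply mul_le_mul_of_nonneg_left _ ((hp s.1 hz).nonneg v)
      apply ih _ h1
      intro s' hs' hc
      exact hh s' hs' (by omega)

lemma Kit_affine (hp : ∀ σ, z ∉ σ → ExitLaw G z σ (p σ)) (t : ℕ) (a b : ℝ)
    (h : Finset V × ℕ → ℝ) (s : Finset V × ℕ) (hz : z ∉ s.1) :
    Kit p z t (fun s => a + b * h s) s = a + b * Kit p z t h s := by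
  induction t generalizing s with
  | zero => rfl
  | succ t ih =>
    simp only [Kit]
    have h1 : ∀ v, p s.1 v * Kit p z t (fun s => a + b * h s) (nx z s v) =
        p s.1 v * a + b * (p s.1 v * Kit p z t h (nx z s v)) := by
      intro v
      by_cases hv : v ∈ s.1
      · rw [(hp s.1 hz).off v hv]; ring
      · rw [ih _ (nx_inv hz hv).1]; ring
    rw [sum_congr rfl (fun v _ => h1 v), sum_add_distrib, ← sum_mul, (hp s.1 hz).sum_one,
      ← mul_sum, one_mul]

lemma Kit_energy (hG : G.Connected) (hT : Trans G) (hn : 2 ≤ Fintype.card V)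
    (hp : ∀ σ, z ∉ σ → ExitLaw G z σ (p σ)) (t : ℕ) (s : Finset V × ℕ) (hz : z ∉ s.1)
    (ht : s.1.card + s.2 + t ≤ Fintype.card V) :
    Kit p z t (fun s => En G hG z s.1 s.2) s ≤
      En G hG z s.1 s.2 + 5 * gr G hG z z * t := by
  induction t generalizing s with
  | zero => simp [Kit]
  | succ t ih =>
    simp only [Kit]
    have h1 : ∀ v, p s.1 v * Kit p z t (fun s => En G hG z s.1 s.2) (nx z s v) ≤
        p s.1 v * En G hG z (nx z s v).1 (nx z s v).2 + p s.1 v * (5 * gr G hG z z * t) := by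
      intro v
      by_cases hv : v ∈ s.1
      · rw [(hp s.1 hz).off v hv]; simp
      · obtain ⟨e1, e2⟩ := nx_inv hz hv
        rw [← mul_add]
        apply mul_le_mul_of_nonneg_left _ ((hp s.1 hz).nonneg v)
        exact ih _ e1 (by omega)
    refine (sum_le_sum fun v _ => h1 v).trans ?_
    rw [sum_add_distrib, ← sum_mul, (hp s.1 hz).sum_one, one_mul]
    have h2 := step_energy G hG hT z s.1 s.2 hz (by omega) hn (p s.1) (hp s.1 hz)
    push_cast
    linarith

/-- indicator of a configuration that is not full -/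
noncomputable def nf (z : V) (s : Finset V × ℕ) : ℝ := if s.1 = univ.erase z then 0 else 1

lemma nf_nonneg (z : V) (s : Finset V × ℕ) : 0 ≤ nf z s := by
  unfold nf; split_ifs <;> norm_num

lemma card_le_of_notMem {σ : Finset V} (hz : z ∉ σ) : σ.card + 1 ≤ Fintype.card V := by
  rw [← card_insert_of_notMem hz]; exact card_le_univ _

lemma Kit_nf_sum (hG : G.Connected) (hT : Trans G) (hn : 2 ≤ Fintype.card V)
    (hp : ∀ σ, z ∉ σ → ExitLaw G z σ (p σ)) (m : ℕ) (s : Finset V × ℕ) (hz : z ∉ s.1) :
    ∑ j ∈ range m, Kit p z j (nf z) s ≤ 2 * ((Fintype.card V : ℝ) - 1 - s.1.card) := by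
  induction m generalizing s with
  | zero =>
    have := card_le_of_notMem hz
    have h : ((s.1.card : ℝ) + 1) ≤ Fintype.card V := by exact_mod_cast this
    simp only [range_zero, sum_empty]
    linarith
  | succ m ih =>
    rw [sum_range_succ']
    simp only [Kit]
    rw [sum_comm]
    simp only [← mul_sum]
    have hE := hp s.1 hz
    have h1 : ∀ v, p s.1 v * ∑ j ∈ range m, Kit p z j (nf z) (nx z s v) ≤
        p s.1 v * (2 * ((Fintype.card V : ℝ) - 1 - s.1.card)) -
          2 * (if v = z then 0 else p s.1 v) := by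
      intro v
      by_cases hv : v ∈ s.1
      · rw [hE.off v hv]; simp
      · obtain ⟨e1, e2⟩ := nx_inv hz hv
        have h2 := mul_le_mul_of_nonneg_left (ih _ e1) (hE.nonneg v)
        refine h2.trans (le_of_eq ?_)
        by_cases hvz : v = z
        · simp [nx, hvz]
        · simp only [nx, if_neg hvz]
          rw [card_insert_of_notMem hv]
          push_cast
          ring
    have h3 : ∑ v, p s.1 v * ∑ j ∈ range m, Kit p z j (nf z) (nx z s v) ≤
        2 * ((Fintype.card V : ℝ) - 1 - s.1.card) - 2 * (1 - p s.1 z) := by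
      refine (sum_le_sum fun v _ => h1 v).trans ?_
      rw [sum_sub_distrib, ← sum_mul, hE.sum_one, ← mul_sum]
      have h4 : ∑ v, (if v = z then 0 else p s.1 v) = 1 - p s.1 z := by
        have : ∀ v, (if v = z then 0 else p s.1 v) = p s.1 v - if v = z then p s.1 v else 0 := by
          intro v; split_ifs <;> ring
        rw [sum_congr rfl (fun v _ => this v), sum_sub_distrib, hE.sum_one]
        simp
      rw [h4]; linarith
    by_cases hfull : s.1 = univ.erase z
    · have h5 : nf z s = 0 := by simp [nf, hfull]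
      have h6 : p s.1 z ≤ 1 := by
        rw [← hE.sum_one]
        exact single_le_sum (fun v _ => hE.nonneg v) (mem_univ z)
      rw [h5]; linarith
    · have h5 : nf z s = 1 := by simp [nf, hfull]
      obtain ⟨k, hk1, hk2⟩ : ∃ k, k ∉ s.1 ∧ k ≠ z := by
        by_contra hcon
        push Not at hcon
        apply hfull
        ext v
        rw [mem_erase]
        constructor
        · intro hv; exact ⟨fun h => hz (h ▸ hv), mem_univ _⟩
        · intro hv
          by_contra h
          exact hv.1 (hcon v h)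
      have h6 := half G hG hT z s.1 hz k hk1 hk2 hn (p s.1) hE
      rw [h5]; linarith

lemma Kit_nf_anti (hp : ∀ σ, z ∉ σ → ExitLaw G z σ (p σ)) (t : ℕ) (s : Finset V × ℕ)
    (hz : z ∉ s.1) : Kit p z (t + 1) (nf z) s ≤ Kit p z t (nf z) s := by
  rw [Kit_add]
  apply Kit_mono G hp t s hz
  intro s' hs' _
  simp only [Kit]
  have hE := hp s'.1 hs'
  by_cases hfull : s'.1 = univ.erase z
  · have h5 : nf z s' = 0 := by simp [nf, hfull]
    rw [h5]
    apply le_of_eq
    apply sum_eq_zero
    intro v _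
    by_cases hv : v ∈ s'.1
    · rw [hE.off v hv]; simp
    · have hvz : v = z := by
        by_contra h
        apply hv
        rw [hfull, mem_erase]; exact ⟨h, mem_univ _⟩
      simp [nx, hvz, nf, hfull]
  · have h5 : nf z s' = 1 := by simp [nf, hfull]
    rw [h5, ← hE.sum_one]
    refine sum_le_sum fun v _ => ?_
    apply mul_le_of_le_one_right (hE.nonneg v)
    unfold nf; split_ifs <;> norm_num

/-- The main bound for the law of the chain. -/
theorem fill_bound (hG : G.Connected) (hT : Trans G) (hn : 2 ≤ Fintype.card V)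
    (hp : ∀ σ, z ∉ σ → ExitLaw G z σ (p σ)) (η : ℝ) (hη0 : 0 < η) (hη1 : η ≤ 1) (K : ℕ)
    (hK : 1 ≤ K * η) (m : ℕ) (hm : 0 < m) :
    Kit p z (Fintype.card V - 1 + m) (nf z) (∅, 0) ≤
      (2 / m) * (1 + η * Fintype.card V + (1 / 2 + 5 * 4 ^ K) * Real.sqrt (Fintype.card V)) := by
  have hmR : (0 : ℝ) < m := by exact_mod_cast hm
  have hnR : (2 : ℝ) ≤ Fintype.card V := by exact_mod_cast hn
  set n : ℝ := (Fintype.card V : ℝ) with hnd
  have hsq : 0 < Real.sqrt n := Real.sqrt_pos.2 (by linarith)
  have hsq2 : Real.sqrt n * Real.sqrt n = n := Real.mul_self_sqrt (by linarith)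
  have hg := gr_diag_pos G hG hT z hn
  set g0 := gr G hG z z with hg0
  have h4K : (0 : ℝ) < 4 ^ K := by positivity
  rw [Kit_add]
  -- step 1
  have step1 : Kit p z (Fintype.card V - 1) (Kit p z m (nf z)) (∅, 0) ≤
      Kit p z (Fintype.card V - 1)
        (fun s => (2 / m) * (1 + η * n + 1 / 2 * Real.sqrt n) +
          ((2 / m) * (4 ^ K / (g0 * Real.sqrt n))) * En G hG z s.1 s.2) (∅, 0) := by
    apply Kit_mono G hp _ _ (by simp)
    intro s hs hc
    simp only [card_empty, zero_add] at hc
    have hcard : (s.1.card : ℝ) + s.2 = n - 1 := by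
      have h1 : s.1.card + s.2 + 1 = Fintype.card V := by omega
      have h2 : ((s.1.card + s.2 + 1 : ℕ) : ℝ) = n := by rw [h1]
      push_cast at h2; linarith
    have h1 : (m : ℝ) * Kit p z m (nf z) s ≤ ∑ j ∈ range m, Kit p z j (nf z) s := by
      have hanti : ∀ j i, Kit p z (i + j) (nf z) s ≤ Kit p z i (nf z) s := by
        intro j
        induction j with
        | zero => intro i; exact le_rfl
        | succ j ih => intro i; exact (Kit_nf_anti G hp (i + j) s hs).trans (ih i)
      have h2 : ∀ j ∈ range m, Kit p z m (nf z) s ≤ Kit p z j (nf z) s := by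
        intro j hj
        rw [mem_range] at hj
        have := hanti (m - j) j
        rwa [Nat.add_sub_cancel' hj.le] at this
      have h3 := card_nsmul_le_sum (range m) _ _ h2
      rwa [nsmul_eq_mul, card_range] at h3
    have h2 := Kit_nf_sum G hG hT hn hp m s hs
    have h3 : Kit p z m (nf z) s ≤ (2 / m) * s.2 := by
      have : (m : ℝ) * Kit p z m (nf z) s ≤ 2 * s.2 := by
        refine h1.trans (h2.trans ?_)
        rw [← hnd]; linarith
      rw [div_mul_eq_mul_div, le_div_iff₀ hmR]
      linarith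
    refine h3.trans ?_
    have h4 := lost_energy G hG hT z hn η hη0 hη1 K hK s.1 s.2 (by omega)
    rw [← hnd, ← hg0] at h4
    set x : ℝ := max 0 ((s.2 : ℝ) - (1 + η * n)) with hx
    have h5 : (s.2 : ℝ) ≤ (1 + η * n) + x := by
      have := le_max_right 0 ((s.2 : ℝ) - (1 + η * n)); linarith
    have h6 : x ≤ 1 / 2 * Real.sqrt n + 4 ^ K / (g0 * Real.sqrt n) * En G hG z s.1 s.2 := by
      have h7 : x ^ 2 ≤ 2 * (4 ^ K / g0 * En G hG z s.1 s.2) := by
        have : x ^ 2 ≤ (2 * 4 ^ K * En G hG z s.1 s.2) / g0 := by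
          rw [le_div_iff₀ hg]; exact h4
        refine this.trans (le_of_eq ?_)
        field_simp
      have h8 : x * Real.sqrt n ≤ 1 / 2 * (x ^ 2 + n) := by
        nlinarith [sq_nonneg (x - Real.sqrt n)]
      have h9 : x * Real.sqrt n ≤ (1 / 2 * Real.sqrt n +
          4 ^ K / (g0 * Real.sqrt n) * En G hG z s.1 s.2) * Real.sqrt n := by
        have e : (1 / 2 * Real.sqrt n + 4 ^ K / (g0 * Real.sqrt n) * En G hG z s.1 s.2) *
            Real.sqrt n = 1 / 2 * n + 4 ^ K / g0 * En G hG z s.1 s.2 := by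
          have : 4 ^ K / (g0 * Real.sqrt n) * En G hG z s.1 s.2 * Real.sqrt n =
              4 ^ K / g0 * En G hG z s.1 s.2 := by field_simp
          rw [add_mul, this, mul_assoc, hsq2]
        rw [e]; linarith
      exact le_of_mul_le_mul_right h9 hsq
    have h2m : (0 : ℝ) < 2 / m := by positivity
    calc (2 / (m : ℝ)) * s.2 ≤ (2 / m) * ((1 + η * n) + (1 / 2 * Real.sqrt n +
          4 ^ K / (g0 * Real.sqrt n) * En G hG z s.1 s.2)) := by
          apply mul_le_mul_of_nonneg_left _ h2m.le
          linarith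
      _ = _ := by ring
  refine step1.trans ?_
  rw [Kit_affine G hp _ _ _ (fun s => En G hG z s.1 s.2) _ (by simp)]
  have hen := Kit_energy G hG hT hn hp (Fintype.card V - 1) (∅, 0) (by simp) (by simp)
  simp only [En_empty, zero_add] at hen
  have hcast : ((Fintype.card V - 1 : ℕ) : ℝ) ≤ n := by
    rw [hnd]; exact_mod_cast Nat.sub_le _ _
  have hen2 : Kit p z (Fintype.card V - 1) (fun s => En G hG z s.1 s.2) (∅, 0) ≤
      5 * g0 * n := by
    refine hen.trans ?_
    apply mul_le_mul_of_nonneg_left hcast; positivity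
  calc (2 / (m : ℝ)) * (1 + η * n + 1 / 2 * Real.sqrt n) +
        ((2 / m) * (4 ^ K / (g0 * Real.sqrt n))) *
          Kit p z (Fintype.card V - 1) (fun s => En G hG z s.1 s.2) (∅, 0) ≤
      (2 / m) * (1 + η * n + 1 / 2 * Real.sqrt n) +
        ((2 / m) * (4 ^ K / (g0 * Real.sqrt n))) * (5 * g0 * n) := by
        gcongr
    _ = (2 / m) * (1 + η * n + (1 / 2 + 5 * 4 ^ K) * Real.sqrt n) := by
        have : (2 / (m : ℝ)) * (4 ^ K / (g0 * Real.sqrt n)) * (5 * g0 * n) =
            (2 / m) * (5 * 4 ^ K * Real.sqrt n) := by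
          have e : n = Real.sqrt n * Real.sqrt n := hsq2.symm
          rw [e]
          rw [Real.sqrt_mul_self hsq.le]
          field_simp
        rw [this]; ring

end Pool.Agent.H719R3
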